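import Pool.Agent.R853.Obs.F1

set_option autoImplicit false

open MeasureTheory FourierTransform SchwartzMap Complex Filter Topology
open scoped ENNReal InnerProductSpace ComplexConjugate ContDiff

namespace Pool.Agent.R853.Obs

variable {d : ℕ}

theorem memLp_mul {φ : E d → ℂ} (hφ : Measurable φ) {C : ℝ} (hC : ∀ x, ‖φ x‖ ≤ C) (f : L2 d) :
    MemLp (fun x => φ x * f x) 2 (volume : Measure (E d)) := by
  have h1 : MemLp φ ⊤ (volume : Measure (E d)) :=
    memLp_top_of_bound hφ.aestronglyMeasurable C (ae_of_all _ hC)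
  have h2 := (Lp.memLp f).mul (p := ⊤) (r := 2) h1
  exact h2

theorem op_eq {φ : E d → ℂ} (hφ : Measurable φ) {C : ℝ} (hC : ∀ x, ‖φ x‖ ≤ C) (f : L2 d) :
    op φ f = (memLp_mul hφ hC f).toLp _ := by
  unfold op
  rw [dif_pos (memLp_mul hφ hC f)]

theorem op_coe {φ : E d → ℂ} (hφ : Measurable φ) {C : ℝ} (hC : ∀ x, ‖φ x‖ ≤ C) (f : L2 d) :
    op φ f =ᵐ[volume] fun x => φ x * f x := by
  rw [op_eq hφ hC]
  exact (memLp_mul hφ hC f).coeFn_toLp

theorem op_smul {φ : E d → ℂ} (hφ : Measurable φ) {C : ℝ} (hC : ∀ x, ‖φ x‖ ≤ C) (α : ℂ) (f : L2 d) :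
    op φ (α • f) = α • op φ f := by
  apply Lp.ext
  filter_upwards [op_coe hφ hC (α • f), op_coe hφ hC f, Lp.coeFn_smul α f,
    Lp.coeFn_smul α (op φ f)] with x h1 h2 h3 h4
  rw [h1, h3, h4, Pi.smul_apply, Pi.smul_apply, h2, smul_eq_mul, smul_eq_mul]
  ring

theorem op_sub {φ : E d → ℂ} (hφ : Measurable φ) {C : ℝ} (hC : ∀ x, ‖φ x‖ ≤ C) (f g : L2 d) :
    op φ (f - g) = op φ f - op φ g := by
  apply Lp.ext
  filter_upwards [op_coe hφ hC (f - g), op_coe hφ hC f, op_coe hφ hC g, Lp.coeFn_sub f g,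
    Lp.coeFn_sub (op φ f) (op φ g)] with x h1 h2 h3 h4 h5
  rw [h1, h4, h5, Pi.sub_apply, Pi.sub_apply, h2, h3]
  ring

theorem enorm_sq_eq (f : L2 d) : ‖f‖ₑ ^ 2 = ∫⁻ x, ‖f x‖ₑ ^ 2 := by
  rw [Lp.enorm_def, eLpNorm_eq_lintegral_rpow_enorm_toReal (by norm_num) (by norm_num)]
  simp only [ENNReal.toReal_ofNat, one_div]
  rw [← ENNReal.rpow_natCast, ← ENNReal.rpow_mul]
  norm_num

theorem norm_op_le {φ : E d → ℂ} (hφ : Measurable φ) (hC : ∀ x, ‖φ x‖ ≤ 1) (f : L2 d) :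
    ‖op φ f‖ ≤ ‖f‖ := by
  apply Lp.norm_le_norm_of_ae_le
  filter_upwards [op_coe hφ hC f] with x h1
  rw [h1, norm_mul]
  exact mul_le_of_le_one_left (norm_nonneg _) (hC x)

theorem op_op {φ ψ : E d → ℂ} (hφ : Measurable φ) {C : ℝ} (hC : ∀ x, ‖φ x‖ ≤ C)
    (hψ : Measurable ψ) {C' : ℝ} (hC' : ∀ x, ‖ψ x‖ ≤ C') (f : L2 d) :
    op φ (op ψ f) = op ψ (op φ f) := by
  apply Lp.ext
  filter_upwards [op_coe hφ hC (op ψ f), op_coe hψ hC' f, op_coe hψ hC' (op φ f),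
    op_coe hφ hC f] with x h1 h2 h3 h4
  rw [h1, h2, h3, h4]
  ring

/-- the character `exp (2 π i ⟨y, ξ⟩)` -/
noncomputable def ch (y : E d) (ξ : E d) : ℂ := Complex.exp (2 * Real.pi * I * (⟪y, ξ⟫_ℝ : ℂ))

theorem ch_meas (y : E d) : Measurable (ch y) := by
  unfold ch
  fun_prop

theorem ch_cont (y : E d) : Continuous (ch y) := by
  unfold ch
  fun_prop

theorem ch_norm (y ξ : E d) : ‖ch y ξ‖ = 1 := by
  unfold ch
  rw [Complex.norm_exp]
  simp

theorem ch_norm_le (y ξ : E d) : ‖ch y ξ‖ ≤ 1 := (ch_norm y ξ).le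

/-- translation on `L²` -/
noncomputable def sh (y : E d) (f : L2 d) : L2 d :=
  Lp.compMeasurePreserving (fun x => x + y) (measurePreserving_add_right volume y) f

theorem sh_coe (y : E d) (f : L2 d) : sh y f =ᵐ[volume] fun x => f (x + y) :=
  Lp.coeFn_compMeasurePreserving f (measurePreserving_add_right volume y)

theorem norm_sh (y : E d) (f : L2 d) : ‖sh y f‖ = ‖f‖ :=
  Lp.norm_compMeasurePreserving f (measurePreserving_add_right volume y)

theorem continuous_op {φ : E d → ℂ} (hφ : Measurable φ) (hC : ∀ x, ‖φ x‖ ≤ 1) :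
    Continuous (op φ : L2 d → L2 d) := by
  apply LipschitzWith.continuous (K := 1)
  apply LipschitzWith.of_dist_le_mul
  intro f g
  rw [dist_eq_norm, dist_eq_norm, ← op_sub hφ hC]
  simpa using norm_op_le hφ hC (f - g)

theorem continuous_sh (y : E d) : Continuous (sh y : L2 d → L2 d) :=
  (Lp.isometry_compMeasurePreserving (measurePreserving_add_right volume y)).continuous

theorem fourierInv_ch_schwartz (y : E d) (g : 𝓢(E d, ℂ)) :
    𝓕⁻ (op (ch y) (g.toLp 2 : L2 d)) = sh y (𝓕⁻ (g.toLp 2 : L2 d)) := by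
  have h1 : Integrable (fun ξ => ch y ξ * g ξ) :=
    g.integrable.bdd_mul (c := 1) (ch_meas y).aestronglyMeasurable (ae_of_all _ (ch_norm_le y))
  have h2 : MemLp (fun ξ => ch y ξ * g ξ) 2 (volume : Measure (E d)) := by
    have h3 : MemLp (ch y) ⊤ (volume : Measure (E d)) :=
      memLp_top_of_bound (ch_meas y).aestronglyMeasurable 1 (ae_of_all _ (ch_norm_le y))
    exact (g.memLp 2 volume).mul (p := ⊤) (r := 2) h3
  have h4 : op (ch y) (g.toLp 2 : L2 d) = h2.toLp _ := by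
    rw [op_eq (ch_meas y) (ch_norm_le y)]
    rw [MemLp.toLp_eq_toLp_iff]
    filter_upwards [g.coeFn_toLp 2 volume] with x hx
    rw [hx]
  rw [h4, SchwartzMap.toLp_fourierInv_eq]
  apply Lp.ext
  have h5 : ∀ᵐ x ∂(volume : Measure (E d)), ((𝓕⁻ g).toLp 2 : L2 d) (x + y) = 𝓕⁻ g (x + y) :=
    (measurePreserving_add_right volume y).quasiMeasurePreserving.ae ((𝓕⁻ g).coeFn_toLp 2 volume)
  filter_upwards [fourierInv_coe_ae h1 h2, sh_coe y ((𝓕⁻ g).toLp 2 : L2 d), h5] with x e1 e2 e3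
  rw [e1, e2, e3, SchwartzMap.fourierInv_coe, Real.fourierInv_eq', Real.fourierInv_eq']
  apply integral_congr_ae
  filter_upwards with ξ
  rw [ch, smul_eq_mul, smul_eq_mul, ← mul_assoc, ← Complex.exp_add]
  congr 2
  rw [inner_add_right, real_inner_comm ξ y]
  push_cast
  ring

theorem fourierInv_ch (y : E d) (G : L2 d) : 𝓕⁻ (op (ch y) G) = sh y (𝓕⁻ G) := by
  apply DenseRange.induction_on (p := fun G : L2 d => 𝓕⁻ (op (ch y) G) = sh y (𝓕⁻ G))
    (SchwartzMap.denseRange_toLpCLM (p := 2) ENNReal.ofNat_ne_top) G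
  · apply isClosed_eq
    · exact (Lp.fourierTransformₗᵢ (E d) ℂ).symm.continuous.comp
        (continuous_op (ch_meas y) (ch_norm_le y))
    · exact (continuous_sh y).comp (Lp.fourierTransformₗᵢ (E d) ℂ).symm.continuous
  intro g
  rw [SchwartzMap.toLpCLM_apply]
  exact fourierInv_ch_schwartz y g

end Pool.Agent.R853.Obs
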