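import Pool.Agent.R853.Obs.Defs

set_option autoImplicit false

/-!
# MP_0a8f24_an: statements of the independent pieces
-/

open MeasureTheory FourierTransform SchwartzMap Complex Filter Topology
open scoped ENNReal InnerProductSpace ComplexConjugate ContDiff

namespace Pool.Agent.R853.Obs

/-- OB-M. Multiplication by `bt x` on the space side becomes, for `ex q c ζ * χ` on the Fourier side,
a polynomial in the parameters with Schwartz coefficients. -/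
def StM : Prop := ∀ (d : ℕ) (q : E d) (χ : 𝓢(E d, ℂ)),
  ∃ (n : ℕ) (χ' : ℕ → ℕ → 𝓢(E d, ℂ)), ∀ c ζ : ℂ, Adm c ζ → ∀ x : E d,
    bt x * 𝓕⁻ (fun ξ => ex q c ζ ξ * χ ξ) x = 𝓕⁻ (fun ξ => ex q c ζ ξ * poly n χ' c ζ ξ) x

/-- OB-A1. Analyticity in `c`. -/
def StA1 : Prop := ∀ (d : ℕ) (q : E d) (H : E d → ℂ), MemLp H 2 volume → ∀ χ : 𝓢(E d, ℂ),
  ContinuousOn (fun c : ℂ => ∫ ξ, H ξ * (ex q c 0 ξ * χ ξ)) {c : ℂ | 0 ≤ c.re} ∧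
  DifferentiableOn ℂ (fun c : ℂ => ∫ ξ, H ξ * (ex q c 0 ξ * χ ξ)) {c : ℂ | 0 < c.re}

/-- OB-A2. Analyticity in `ζ`. -/
def StA2 : Prop := ∀ (d : ℕ) (q : E d) (H : E d → ℂ), MemLp H 2 volume → ∀ χ : 𝓢(E d, ℂ),
  Differentiable ℂ (fun ζ : ℂ => ∫ ξ, H ξ * (ex q 1 ζ ξ * χ ξ))

/-- OB-U. Uniqueness at the boundary. -/
def StU : Prop := ∀ (F : ℂ → ℂ) (t₁ t₂ : ℝ), t₁ < t₂ →
  ContinuousOn F {c : ℂ | 0 ≤ c.re} → DifferentiableOn ℂ F {c : ℂ | 0 < c.re} →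
  (∀ t : ℝ, t₁ < t → t < t₂ → F (t * I) = 0) → ∀ c : ℂ, 0 < c.re → F c = 0

/-- OB-W. The weight is bounded and in `L²`. -/
def StW : Prop := ∀ d : ℕ, Measurable (wt (d := d)) ∧ (∀ x : E d, ‖wt x‖ ≤ 1) ∧
  (∀ x : E d, conj (bt x) * wt x = 1) ∧ (∀ x : E d, wt x ≠ 0) ∧
  (∫⁻ x : E d, ‖wt x‖ₑ ^ 2) ≠ ⊤

/-- OB-B. From a uniformly continuous relatively dense function to balls. -/
def StB : Prop := ∀ (d : ℕ) (a : E d → ℝ), (∀ x, 0 ≤ a x) → (∀ x, a x ≤ 1) → UniformContinuous a →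
  ∀ L η : ℝ, 0 < L → 0 < η →
  (∀ x : E d, η * L ^ d ≤ ∫ y in {y : E d | ∀ i, x i ≤ y i ∧ y i ≤ x i + L}, a y) →
  ∃ c r R : ℝ, 0 < c ∧ 0 < r ∧ 0 < R ∧ ∀ x : E d, ∃ y : E d, ‖y - x‖ ≤ R ∧
    ∀ x' : E d, ‖x' - y‖ < r → c ≤ a x'

/-- OB-T. Choice of good times: a nonnegative continuous function with small integral is small
somewhere on each of the intervals `[j T / m, (j + 1) T / m]`. -/
def StT : Prop := ∀ (f : ℝ → ℝ) (T δ : ℝ) (m : ℕ), 0 < T → 0 < m → ContinuousOn f (Set.Icc 0 T) →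
  (∀ t ∈ Set.Icc 0 T, 0 ≤ f t) → (∫ t in (0:ℝ)..T, f t) ≤ δ →
  ∃ τ : Fin m → ℝ, ∀ j : Fin m, (j : ℝ) * T / m ≤ τ j ∧ τ j ≤ ((j : ℝ) + 1) * T / m ∧
    f (τ j) ≤ m * δ / T

end Pool.Agent.R853.Obs
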