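import Pool.Agent.R853.Obs.Core1
import Pool.Agent.R853.Obs.Stm

set_option autoImplicit false

open MeasureTheory FourierTransform SchwartzMap Complex Filter Topology
open scoped ENNReal InnerProductSpace ComplexConjugate ContDiff

namespace Pool.Agent.R853.Obs

variable {d : ℕ}

theorem tonelli {u v : E d → ℝ≥0∞} (hu : Measurable u) (hv : Measurable v) :
    ∫⁻ y, ∫⁻ x, u x * v (x + y) = (∫⁻ x, u x) * ∫⁻ x, v x := by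
  rw [lintegral_lintegral_swap]
  · have h1 : ∀ x : E d, ∫⁻ y, u x * v (x + y) = u x * ∫⁻ y, v y := by
      intro x
      rw [lintegral_const_mul _ (by fun_prop), lintegral_add_left_eq_self]
    simp_rw [h1]
    rw [lintegral_mul_const _ hu]
  · apply Measurable.aemeasurable
    unfold Function.uncurry
    fun_prop

theorem meas_inner {u v : E d → ℝ≥0∞} (hu : Measurable u) (hv : Measurable v) :
    Measurable (fun y : E d => ∫⁻ x, u x * v (x + y)) := by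
  apply Measurable.lintegral_prod_right'  (f := fun p : E d × E d => u p.2 * v (p.2 + p.1))
  fun_prop

/-- `T_z` -/
noncomputable def Tz (x₀ ξ₀ : E d) (F : L2 d) : L2 d := op (ch x₀) (sh ξ₀ F)

/-- `W` -/
noncomputable def Wo (v : L2 d) : L2 d := op wt (𝓕⁻ (op wt v))

theorem coe_meas (f : L2 d) : Measurable (fun x => ‖f x‖ₑ ^ 2) :=
  ((Lp.stronglyMeasurable f).measurable.enorm).pow_const 2

theorem WT_eq (hm : Measurable (wt (d := d))) (hb : ∀ x : E d, ‖wt x‖ ≤ 1) (x₀ ξ₀ : E d) (F : L2 d) :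
    ‖Wo (Tz x₀ ξ₀ F)‖ₑ ^ 2 =
      ∫⁻ x, ‖wt x‖ₑ ^ 2 * ‖(𝓕⁻ (op wt (sh ξ₀ F)) : L2 d) (x + x₀)‖ₑ ^ 2 := by
  rw [enorm_sq_eq, Wo, Tz, op_op hm hb (ch_meas x₀) (ch_norm_le x₀), fourierInv_ch]
  apply lintegral_congr_ae
  filter_upwards [op_coe hm hb (sh x₀ (𝓕⁻ (op wt (sh ξ₀ F)))),
    sh_coe x₀ (𝓕⁻ (op wt (sh ξ₀ F)))] with x h1 h2
  rw [h1, h2, enorm_mul, mul_pow]

theorem WT_meas (hm : Measurable (wt (d := d))) (hb : ∀ x : E d, ‖wt x‖ ≤ 1) (ξ₀ : E d) (F : L2 d) :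
    Measurable (fun x₀ => ‖Wo (Tz x₀ ξ₀ F)‖ₑ ^ 2) := by
  simp_rw [WT_eq hm hb]
  exact meas_inner (hm.enorm.pow_const 2) (coe_meas _)

theorem WT_int (hm : Measurable (wt (d := d))) (hb : ∀ x : E d, ‖wt x‖ ≤ 1) (ξ₀ : E d) (F : L2 d) :
    ∫⁻ x₀, ‖Wo (Tz x₀ ξ₀ F)‖ₑ ^ 2 =
      (∫⁻ x : E d, ‖wt x‖ₑ ^ 2) * ∫⁻ ξ, ‖wt ξ‖ₑ ^ 2 * ‖F (ξ + ξ₀)‖ₑ ^ 2 := by
  simp_rw [WT_eq hm hb]
  rw [tonelli (hm.enorm.pow_const 2) (coe_meas _)]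
  congr 1
  rw [← enorm_sq_eq]
  have h1 : ‖(𝓕⁻ (op wt (sh ξ₀ F)) : L2 d)‖ₑ = ‖op wt (sh ξ₀ F)‖ₑ := by
    rw [← ofReal_norm_eq_enorm, ← ofReal_norm_eq_enorm]
    congr 1
    exact (Lp.fourierTransformₗᵢ (E d) ℂ).symm.norm_map _
  rw [h1, enorm_sq_eq]
  apply lintegral_congr_ae
  filter_upwards [op_coe hm hb (sh ξ₀ F), sh_coe ξ₀ F] with x h1 h2
  rw [h1, h2, enorm_mul, mul_pow]

theorem WT_int2 (hm : Measurable (wt (d := d))) (hb : ∀ x : E d, ‖wt x‖ ≤ 1) (F : L2 d) :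
    ∫⁻ ξ₀, ∫⁻ x₀, ‖Wo (Tz x₀ ξ₀ F)‖ₑ ^ 2 =
      (∫⁻ x : E d, ‖wt x‖ₑ ^ 2) ^ 2 * ‖F‖ₑ ^ 2 := by
  simp_rw [WT_int hm hb]
  rw [lintegral_const_mul _ (meas_inner (hm.enorm.pow_const 2) (coe_meas _)),
    tonelli (hm.enorm.pow_const 2) (coe_meas _), enorm_sq_eq]
  ring

/-- the other functional -/
theorem HT_int {γ : E d → ℂ} (hγ : Measurable γ) {C : ℝ} (hC : ∀ x, ‖γ x‖ ≤ C)
    (h2 : MemLp γ 2 (volume : Measure (E d))) (ξ₀ : E d) (F : L2 d) :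
    ∫⁻ x₀, ‖⟪h2.toLp γ, Tz x₀ ξ₀ F⟫_ℂ‖ₑ ^ 2 = ∫⁻ ξ, ‖γ ξ‖ₑ ^ 2 * ‖F (ξ + ξ₀)‖ₑ ^ 2 := by
  have hγc : Measurable (fun ξ => conj (γ ξ)) := by fun_prop
  have hCc : ∀ x, ‖conj (γ x)‖ ≤ C := fun x => by rw [RCLike.norm_conj]; exact hC x
  have k2 := memLp_mul hγc hCc (sh ξ₀ F)
  have k1 : Integrable (fun x => conj (γ x) * (sh ξ₀ F) x) := by
    have h3 : MemLp (fun x => conj (γ x)) 2 (volume : Measure (E d)) := by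
      refine h2.norm.of_le hγc.aestronglyMeasurable (ae_of_all _ fun x => ?_)
      rw [RCLike.norm_conj, norm_norm]
    have h4 := (Lp.memLp (sh ξ₀ F)).mul (p := 2) (r := 1) h3
    exact memLp_one_iff_integrable.1 h4
  have e1 : ∀ x₀, ⟪h2.toLp γ, Tz x₀ ξ₀ F⟫_ℂ = 𝓕⁻ (fun x => conj (γ x) * (sh ξ₀ F) x) x₀ := by
    intro x₀
    rw [inner_eq_integral, Real.fourierInv_eq']
    apply integral_congr_ae
    filter_upwards [h2.coeFn_toLp, op_coe (ch_meas x₀) (ch_norm_le x₀) (sh ξ₀ F)] with x h5 h6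
    rw [h5, Tz, h6, ch, smul_eq_mul, real_inner_comm x x₀]
    have : (2 * Real.pi * I * (⟪x, x₀⟫_ℝ : ℂ)) = ((2 * Real.pi * ⟪x, x₀⟫_ℝ : ℝ) : ℂ) * I := by
      push_cast
      ring
    rw [this]
    ring
  simp_rw [e1]
  have e2 : ∫⁻ x₀, ‖𝓕⁻ (fun x => conj (γ x) * (sh ξ₀ F) x) x₀‖ₑ ^ 2 =
      ‖(𝓕⁻ (k2.toLp _) : L2 d)‖ₑ ^ 2 := by
    rw [enorm_sq_eq]
    apply lintegral_congr_ae
    filter_upwards [fourierInv_coe_ae k1 k2] with x hx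
    rw [hx]
  rw [e2]
  have h1 : ‖(𝓕⁻ (k2.toLp _) : L2 d)‖ₑ = ‖(k2.toLp _ : L2 d)‖ₑ := by
    rw [← ofReal_norm_eq_enorm, ← ofReal_norm_eq_enorm]
    congr 1
    exact (Lp.fourierTransformₗᵢ (E d) ℂ).symm.norm_map _
  rw [h1, enorm_sq_eq]
  apply lintegral_congr_ae
  filter_upwards [k2.coeFn_toLp, sh_coe ξ₀ F] with x h1 h2
  rw [h1, h2, enorm_mul, mul_pow]
  congr 2
  rw [← ofReal_norm_eq_enorm, ← ofReal_norm_eq_enorm, RCLike.norm_conj]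

theorem HT_int2 {γ : E d → ℂ} (hγ : Measurable γ) {C : ℝ} (hC : ∀ x, ‖γ x‖ ≤ C)
    (h2 : MemLp γ 2 (volume : Measure (E d))) (F : L2 d) :
    ∫⁻ ξ₀, ∫⁻ x₀, ‖⟪h2.toLp γ, Tz x₀ ξ₀ F⟫_ℂ‖ₑ ^ 2 = ‖h2.toLp γ‖ₑ ^ 2 * ‖F‖ₑ ^ 2 := by
  simp_rw [HT_int hγ hC h2]
  rw [tonelli (hγ.enorm.pow_const 2) (coe_meas _), enorm_sq_eq, enorm_sq_eq]
  congr 1
  apply lintegral_congr_ae
  filter_upwards [h2.coeFn_toLp] with x hx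
  rw [hx]

end Pool.Agent.R853.Obs
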