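import Pool.Agent.R853.Obs.Core2

set_option autoImplicit false

open MeasureTheory FourierTransform SchwartzMap Complex Filter Topology
open scoped ENNReal InnerProductSpace ComplexConjugate ContDiff

namespace Pool.Agent.R853.Obs

variable {d : ℕ}

theorem enorm_sq_ofReal {V : Type*} [NormedAddCommGroup V] (v : V) :
    ‖v‖ₑ ^ 2 = ENNReal.ofReal (‖v‖ ^ 2) := by
  rw [← ofReal_norm, ENNReal.ofReal_pow (norm_nonneg _)]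

theorem abs_sel {X : Type*} [MeasurableSpace X] (μ : Measure X) (h n : X → X → ℝ≥0∞) {m : ℕ}
    (o : Fin m → X → X → ℝ≥0∞) (hn1 : ∀ y, Measurable (fun x => n x y))
    (hn2 : Measurable (fun y => ∫⁻ x, n x y ∂μ)) (ho1 : ∀ j y, Measurable (fun x => o j x y))
    (ho2 : ∀ j, Measurable (fun y => ∫⁻ x, o j x y ∂μ)) (α β : ℝ≥0∞)
    (hlt : α * (∫⁻ y, ∫⁻ x, n x y ∂μ ∂μ) + β * ∑ j, (∫⁻ y, ∫⁻ x, o j x y ∂μ ∂μ) <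
      ∫⁻ y, ∫⁻ x, h x y ∂μ ∂μ) :
    ∃ x y, α * n x y + β * ∑ j, o j x y < h x y := by
  by_contra hcon
  push Not at hcon
  have e2 : ∫⁻ y, ∫⁻ x, h x y ∂μ ∂μ ≤
      ∫⁻ y, ∫⁻ x, (α * n x y + β * ∑ j, o j x y) ∂μ ∂μ :=
    lintegral_mono fun y => lintegral_mono fun x => hcon x y
  have i1 : ∀ y, ∫⁻ x, (α * n x y + β * ∑ j, o j x y) ∂μ =
      α * (∫⁻ x, n x y ∂μ) + β * ∑ j, ∫⁻ x, o j x y ∂μ := by
    intro y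
    rw [lintegral_add_left ((hn1 y).const_mul _), lintegral_const_mul _ (hn1 y),
      lintegral_const_mul _ (Finset.measurable_fun_sum _ fun j _ => ho1 j y),
      lintegral_finsetSum _ (fun j _ => ho1 j y)]
  simp_rw [i1] at e2
  rw [lintegral_add_left (hn2.const_mul _), lintegral_const_mul _ hn2,
    lintegral_const_mul _ (Finset.measurable_fun_sum _ fun j _ => ho2 j),
    lintegral_finsetSum _ (fun j _ => ho2 j)] at e2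
  exact absurd hlt (not_lt.2 e2)

theorem ptw {m : ℕ} (H N : ℝ) (O : Fin m → ℝ) (α δ : ℝ) (hα0 : 0 < α) (hδ : 0 < δ) (hN : 0 ≤ N)
    (hO : ∀ j, 0 ≤ O j) (h : α * N + (α / δ) * ∑ j, O j < H) :
    0 < H ∧ N ≤ α⁻¹ * H ∧ ∀ j, O j ≤ α⁻¹ * δ * H := by
  have s0 : 0 ≤ ∑ j, O j := Finset.sum_nonneg fun j _ => hO j
  have p1 : 0 ≤ α * N := by positivity
  have p2 : 0 ≤ (α / δ) * ∑ j, O j := by positivity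
  refine ⟨by linarith, ?_, ?_⟩
  · rw [inv_mul_eq_div, le_div_iff₀ hα0]
    linarith
  · intro j
    have q1 : O j ≤ ∑ j, O j := Finset.single_le_sum (f := O) (fun i _ => hO i) (Finset.mem_univ j)
    have q2 : (α / δ) * O j ≤ (α / δ) * ∑ j, O j := mul_le_mul_of_nonneg_left q1 (by positivity)
    have q3 : (α / δ) * O j ≤ H := by linarith
    have q4 : O j = (α⁻¹ * δ) * ((α / δ) * O j) := by
      field_simp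
    rw [q4]
    exact mul_le_mul_of_nonneg_left q3 (by positivity)

theorem num (A G F S δ α : ℝ) (_hA0 : 0 ≤ A) (hG0 : 0 < G) (hF : 0 < F) (hδ : 0 < δ)
    (hα : α = G / (4 * (A ^ 2 + 1))) (hs : S ≤ δ * F) :
    α * (A ^ 2 * F) + (α / δ) * (A ^ 2 * S) < G * F := by
  have hα0 : 0 < α := by rw [hα]; positivity
  have b1 : (α / δ) * (A ^ 2 * S) ≤ α * (A ^ 2 * F) := by
    have : (α / δ) * (A ^ 2 * S) ≤ (α / δ) * (A ^ 2 * (δ * F)) := by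
      apply mul_le_mul_of_nonneg_left _ (by positivity)
      exact mul_le_mul_of_nonneg_left hs (by positivity)
    refine this.trans (le_of_eq ?_)
    field_simp
  have b2 : α * (A ^ 2 * F) ≤ (1 / 4) * (G * F) := by
    have h3 : α * A ^ 2 ≤ (1 / 4) * G := by
      rw [hα, div_mul_eq_mul_div, div_le_iff₀ (by positivity)]
      nlinarith
    calc α * (A ^ 2 * F) = (α * A ^ 2) * F := by ring
      _ ≤ ((1 / 4) * G) * F := mul_le_mul_of_nonneg_right h3 hF.le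
      _ = _ := by ring
  have b3 : 0 < G * F := by positivity
  linarith

theorem conv {V : Type*} [NormedAddCommGroup V] {m : ℕ} (a : V) (b : Fin m → V) (c : ℂ) (α β : ℝ)
    (hα : 0 ≤ α) (hβ : 0 ≤ β)
    (h : ENNReal.ofReal α * ‖a‖ₑ ^ 2 + ENNReal.ofReal β * ∑ j, ‖b j‖ₑ ^ 2 < ‖c‖ₑ ^ 2) :
    α * ‖a‖ ^ 2 + β * ∑ j, ‖b j‖ ^ 2 < ‖c‖ ^ 2 := by
  simp_rw [enorm_sq_ofReal] at h
  have hs0 : 0 ≤ ∑ j, ‖b j‖ ^ 2 := Finset.sum_nonneg fun j _ => sq_nonneg _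
  rw [← ENNReal.ofReal_sum_of_nonneg (fun j _ => sq_nonneg _), ← ENNReal.ofReal_mul hα,
    ← ENNReal.ofReal_mul hβ, ← ENNReal.ofReal_add (mul_nonneg hα (sq_nonneg _))
      (mul_nonneg hβ hs0)] at h
  exact lt_of_not_ge fun hc => absurd h (not_lt.2 (ENNReal.ofReal_le_ofReal hc))

theorem conv2 {V : Type*} [NormedAddCommGroup V] {m : ℕ} (F : V) (Fj : Fin m → V) (g : V)
    (A α β : ℝ) (hA : 0 ≤ A) (hα : 0 ≤ α) (hβ : 0 ≤ β)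
    (h : α * (A ^ 2 * ‖F‖ ^ 2) + β * (A ^ 2 * ∑ j, ‖Fj j‖ ^ 2) < ‖g‖ ^ 2 * ‖F‖ ^ 2) :
    ENNReal.ofReal α * (ENNReal.ofReal A ^ 2 * ‖F‖ₑ ^ 2) +
      ENNReal.ofReal β * ∑ j, ENNReal.ofReal A ^ 2 * ‖Fj j‖ₑ ^ 2 < ‖g‖ₑ ^ 2 * ‖F‖ₑ ^ 2 := by
  simp_rw [enorm_sq_ofReal]
  have hs0 : 0 ≤ ∑ j, ‖Fj j‖ ^ 2 := Finset.sum_nonneg fun j _ => sq_nonneg _
  have hA2 : 0 ≤ A ^ 2 := sq_nonneg _
  rw [← Finset.mul_sum, ← ENNReal.ofReal_sum_of_nonneg (fun j _ => sq_nonneg _),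
    ← ENNReal.ofReal_pow hA, ← ENNReal.ofReal_mul hA2, ← ENNReal.ofReal_mul hA2,
    ← ENNReal.ofReal_mul hα, ← ENNReal.ofReal_mul hβ, ← ENNReal.ofReal_mul (sq_nonneg _),
    ← ENNReal.ofReal_add (mul_nonneg hα (mul_nonneg hA2 (sq_nonneg _)))
      (mul_nonneg hβ (mul_nonneg hA2 hs0))]
  apply (ENNReal.ofReal_lt_ofReal_iff_of_nonneg _).2 h
  exact add_nonneg (mul_nonneg hα (mul_nonneg hA2 (sq_nonneg _)))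
      (mul_nonneg hβ (mul_nonneg hA2 hs0))

theorem selection (hm : Measurable (wt (d := d))) (hb : ∀ x : E d, ‖wt x‖ ≤ 1)
    (hA : (∫⁻ x : E d, ‖wt x‖ₑ ^ 2) ≠ ⊤) {γ : E d → ℂ} (hγ : Measurable γ) {C₀ : ℝ}
    (hC : ∀ x, ‖γ x‖ ≤ C₀) (h2 : MemLp γ 2 (volume : Measure (E d))) (h0 : h2.toLp γ ≠ 0) :
    ∃ C : ℝ, 0 < C ∧ ∀ (F : L2 d), F ≠ 0 → ∀ (m : ℕ) (Fj : Fin m → L2 d) (δ : ℝ), 0 < δ →
      ∑ j, ‖Fj j‖ ^ 2 ≤ δ * ‖F‖ ^ 2 →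
      ∃ x₀ ξ₀ : E d, 0 < ‖⟪h2.toLp γ, Tz x₀ ξ₀ F⟫_ℂ‖ ^ 2 ∧
        ‖Wo (Tz x₀ ξ₀ F)‖ ^ 2 ≤ C * ‖⟪h2.toLp γ, Tz x₀ ξ₀ F⟫_ℂ‖ ^ 2 ∧
        ∀ j, ‖Wo (Tz x₀ ξ₀ (Fj j))‖ ^ 2 ≤ C * δ * ‖⟪h2.toLp γ, Tz x₀ ξ₀ F⟫_ℂ‖ ^ 2 := by
  obtain ⟨A, hAd⟩ : ∃ A : ℝ, A = (∫⁻ x : E d, ‖wt x‖ₑ ^ 2).toReal := ⟨_, rfl⟩
  have hA0 : 0 ≤ A := by rw [hAd]; exact ENNReal.toReal_nonneg
  have hAe : (∫⁻ x : E d, ‖wt x‖ₑ ^ 2) = ENNReal.ofReal A := by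
    rw [hAd]; exact (ENNReal.ofReal_toReal hA).symm
  obtain ⟨G, hG⟩ : ∃ G : ℝ, G = ‖h2.toLp γ‖ ^ 2 := ⟨_, rfl⟩
  have hG0 : 0 < G := by
    have : 0 < ‖h2.toLp γ‖ := norm_pos_iff.2 h0
    rw [hG]
    exact pow_pos this 2
  obtain ⟨α, hα⟩ : ∃ α : ℝ, α = G / (4 * (A ^ 2 + 1)) := ⟨_, rfl⟩
  have hα0 : 0 < α := by rw [hα]; positivity
  refine ⟨α⁻¹, inv_pos.2 hα0, ?_⟩
  intro F hF m Fj δ hδ hs
  have hF0 : 0 < ‖F‖ ^ 2 := pow_pos (norm_pos_iff.2 hF) 2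
  have hβ : 0 ≤ α / δ := (div_pos hα0 hδ).le
  have hnum := num A G (‖F‖ ^ 2) (∑ j, ‖Fj j‖ ^ 2) δ α hA0 hG0 hF0 hδ hα hs
  rw [hG] at hnum
  have hc2 := conv2 F Fj (h2.toLp γ) A α (α / δ) hA0 hα0.le hβ hnum
  have m1 : ∀ F' : L2 d, Measurable (fun ξ₀ => ∫⁻ x₀, ‖Wo (Tz x₀ ξ₀ F')‖ₑ ^ 2) := by
    intro F'
    simp_rw [WT_int hm hb]
    exact (meas_inner (hm.enorm.pow_const 2) (coe_meas _)).const_mul _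
  obtain ⟨x₀, ξ₀, hx⟩ := abs_sel (volume : Measure (E d))
    (fun x₀ ξ₀ => ‖⟪h2.toLp γ, Tz x₀ ξ₀ F⟫_ℂ‖ₑ ^ 2) (fun x₀ ξ₀ => ‖Wo (Tz x₀ ξ₀ F)‖ₑ ^ 2)
    (fun j x₀ ξ₀ => ‖Wo (Tz x₀ ξ₀ (Fj j))‖ₑ ^ 2) (fun ξ₀ => WT_meas hm hb ξ₀ F) (m1 F)
    (fun j ξ₀ => WT_meas hm hb ξ₀ (Fj j)) (fun j => m1 (Fj j)) (ENNReal.ofReal α)
    (ENNReal.ofReal (α / δ)) (by
      rw [WT_int2 hm hb, HT_int2 hγ hC h2, hAe]
      simp_rw [WT_int2 hm hb, hAe]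
      exact hc2)
  have hx2 := conv (Wo (Tz x₀ ξ₀ F)) (fun j => Wo (Tz x₀ ξ₀ (Fj j))) _ α (α / δ) hα0.le hβ hx
  refine ⟨x₀, ξ₀, ?_⟩
  exact ptw _ _ (fun j => ‖Wo (Tz x₀ ξ₀ (Fj j))‖ ^ 2) α δ hα0 hδ (sq_nonneg _)
    (fun j => sq_nonneg _) hx2

end Pool.Agent.R853.Obs
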