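import Pool.Agent.R853.Obs.Core3
import Pool.Agent.R308.OBM

set_option autoImplicit false

open MeasureTheory FourierTransform SchwartzMap Complex Filter Topology
open scoped ENNReal InnerProductSpace ComplexConjugate ContDiff

namespace Pool.Agent.R853.Obs

variable {d : ℕ}

/-- limit of a bounded sequence along an ultrafilter -/
theorem ultra (u : ℕ → L2 d) (C : ℝ) (hu : ∀ m, ‖u m‖ ≤ C) (U : Ultrafilter ℕ) :
    ∃ h : L2 d, ∀ φ : L2 d, Tendsto (fun m => ⟪φ, u m⟫_ℂ) U (𝓝 ⟪φ, h⟫_ℂ) := by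
  let x : ℕ → WeakDual ℂ (L2 d) := fun m =>
    StrongDual.toWeakDual (InnerProductSpace.toDual ℂ (L2 d) (u m))
  have hK := WeakDual.isCompact_closedBall (𝕜 := ℂ) (E := L2 d) 0 C
  have hx : ∀ m, x m ∈ (WeakDual.toStrongDual ⁻¹' Metric.closedBall 0 C : Set (WeakDual ℂ (L2 d))) := by
    intro m
    rw [Set.mem_preimage, mem_closedBall_zero_iff]
    change ‖InnerProductSpace.toDual ℂ (L2 d) (u m)‖ ≤ C
    rw [LinearIsometryEquiv.norm_map]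
    exact hu m
  obtain ⟨x', -, hx'⟩ := hK.ultrafilter_le_nhds (U.map x) (by
    rw [Ultrafilter.coe_map]
    exact tendsto_principal.2 (Eventually.of_forall hx))
  have ht : Tendsto x U (𝓝 x') := hx'
  refine ⟨(InnerProductSpace.toDual ℂ (L2 d)).symm (WeakDual.toStrongDual x'), fun φ => ?_⟩
  have h1 : Tendsto (fun m => x m φ) U (𝓝 (x' φ)) :=
    (WeakDual.eval_continuous φ).continuousAt.tendsto.comp ht
  have h2 : ∀ m, ⟪φ, u m⟫_ℂ = conj (x m φ) := by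
    intro m
    change ⟪φ, u m⟫_ℂ = conj ((InnerProductSpace.toDual ℂ (L2 d) (u m)) φ)
    rw [InnerProductSpace.toDual_apply_apply, inner_conj_symm]
  have h3 : ⟪φ, (InnerProductSpace.toDual ℂ (L2 d)).symm (WeakDual.toStrongDual x')⟫_ℂ =
      conj (x' φ) := by
    rw [← inner_conj_symm, InnerProductSpace.toDual_symm_apply]
    rfl
  simp_rw [h2]
  rw [h3]
  exact (Complex.continuous_conj.tendsto _).comp h1

/-- `L²` class of a function; zero if it is not in `L²` -/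
noncomputable def toL (f : E d → ℂ) : L2 d := by
  classical
  exact if h : MemLp f 2 (volume : Measure (E d)) then h.toLp _ else 0

theorem toL_eq {f : E d → ℂ} (h : MemLp f 2 (volume : Measure (E d))) : toL f = h.toLp _ := by
  unfold toL
  rw [dif_pos h]

theorem toL_coe {f : E d → ℂ} (h : MemLp f 2 (volume : Measure (E d))) : toL f =ᵐ[volume] f := by
  rw [toL_eq h]
  exact h.coeFn_toLp

theorem ex_cont (q : E d) (c ζ : ℂ) : Continuous (ex q c ζ) := by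
  unfold ex
  fun_prop

theorem ex_bdd (q : E d) (c ζ : ℂ) (h : Adm c ζ) : ∃ M : ℝ, ∀ ξ, ‖ex q c ζ ξ‖ ≤ M := by
  obtain ⟨M, hM⟩ := Pool.Agent.R308.OBM.W_bdd q 0 c ζ h
  refine ⟨M, fun ξ => ?_⟩
  have := hM ξ
  rw [Pool.Agent.R308.OBM.W] at this
  rw [ex]
  simpa using this

/-- the Schwartz function `poly` -/
noncomputable def polyS (n : ℕ) (χ : ℕ → ℕ → 𝓢(E d, ℂ)) (c ζ : ℂ) : 𝓢(E d, ℂ) :=
  ∑ k ∈ Finset.range n, ∑ l ∈ Finset.range n, (c ^ k * ζ ^ l) • χ k l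

theorem polyS_apply (n : ℕ) (χ : ℕ → ℕ → 𝓢(E d, ℂ)) (c ζ : ℂ) (ξ : E d) :
    polyS n χ c ζ ξ = poly n χ c ζ ξ := by
  unfold polyS poly
  rw [SchwartzMap.sum_apply]
  apply Finset.sum_congr rfl
  intro k _
  rw [SchwartzMap.sum_apply]
  rfl

theorem exS_int (q : E d) (c ζ : ℂ) (h : Adm c ζ) (χ : 𝓢(E d, ℂ)) :
    Integrable (fun ξ => ex q c ζ ξ * χ ξ) := by
  obtain ⟨M, hM⟩ := ex_bdd q c ζ h
  exact χ.integrable.bdd_mul (c := M) (ex_cont q c ζ).aestronglyMeasurable (ae_of_all _ hM)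

theorem exS_memLp (q : E d) (c ζ : ℂ) (h : Adm c ζ) (χ : 𝓢(E d, ℂ)) :
    MemLp (fun ξ => ex q c ζ ξ * χ ξ) 2 (volume : Measure (E d)) := by
  obtain ⟨M, hM⟩ := ex_bdd q c ζ h
  have h3 : MemLp (ex q c ζ) ⊤ (volume : Measure (E d)) :=
    memLp_top_of_bound (ex_cont q c ζ).aestronglyMeasurable M (ae_of_all _ hM)
  exact (χ.memLp 2 volume).mul (p := ⊤) (r := 2) h3

theorem exS_meas (q : E d) (c ζ : ℂ) (χ : 𝓢(E d, ℂ)) :
    Measurable (fun ξ => ex q c ζ ξ * χ ξ) :=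
  ((ex_cont q c ζ).mul χ.continuous).measurable

theorem exS_bdd (q : E d) (c ζ : ℂ) (h : Adm c ζ) (χ : 𝓢(E d, ℂ)) :
    ∃ M : ℝ, ∀ ξ, ‖ex q c ζ ξ * χ ξ‖ ≤ M := by
  obtain ⟨M, hM⟩ := ex_bdd q c ζ h
  obtain ⟨C, _, hC⟩ := χ.decay 0 0
  refine ⟨M * C, fun ξ => ?_⟩
  rw [norm_mul]
  have h1 := hC ξ
  rw [norm_iteratedFDeriv_zero, pow_zero, one_mul] at h1
  exact mul_le_mul (hM ξ) h1 (norm_nonneg _) ((norm_nonneg _).trans (hM ξ))

/-- the function on the Fourier side -/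
noncomputable def Phi (q : E d) (n : ℕ) (χ : ℕ → ℕ → 𝓢(E d, ℂ)) (c ζ : ℂ) (ξ : E d) : ℂ :=
  ex q c ζ ξ * poly n χ c ζ ξ

theorem Phi_eq (q : E d) (n : ℕ) (χ : ℕ → ℕ → 𝓢(E d, ℂ)) (c ζ : ℂ) :
    Phi q n χ c ζ = fun ξ => ex q c ζ ξ * polyS n χ c ζ ξ := by
  funext ξ
  rw [Phi, polyS_apply]

theorem Phi_memLp (q : E d) (n : ℕ) (χ : ℕ → ℕ → 𝓢(E d, ℂ)) (c ζ : ℂ) (h : Adm c ζ) :
    MemLp (Phi q n χ c ζ) 2 (volume : Measure (E d)) := by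
  rw [Phi_eq]
  exact exS_memLp q c ζ h _

theorem Phi_int (q : E d) (n : ℕ) (χ : ℕ → ℕ → 𝓢(E d, ℂ)) (c ζ : ℂ) (h : Adm c ζ) :
    Integrable (Phi q n χ c ζ) := by
  rw [Phi_eq]
  exact exS_int q c ζ h _

/-- the weighted test vector -/
noncomputable def Yv (q : E d) (n : ℕ) (χ : ℕ → ℕ → 𝓢(E d, ℂ)) (c ζ : ℂ) : L2 d :=
  𝓕⁻ (toL (Phi q n χ c ζ))

/-- the product of a Schwartz function with `bt` -/
theorem btS (η : 𝓢(E d, ℂ)) : ∃ χ₀ : 𝓢(E d, ℂ), ∀ ξ, χ₀ ξ = bt ξ * η ξ := by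
  classical
  have main : ∀ S : Finset (Fin d), ∃ χ₀ : 𝓢(E d, ℂ), ∀ ξ, χ₀ ξ = (∏ j ∈ S, ((ξ j : ℂ) - I)) * η ξ := by
    intro S
    induction S using Finset.induction_on with
    | empty => exact ⟨η, fun ξ => by simp⟩
    | insert a S ha ih =>
      obtain ⟨χ, h⟩ := ih
      refine ⟨Pool.Agent.R308.OBM.cm a χ - I • χ, fun ξ => ?_⟩
      rw [Finset.prod_insert ha, SchwartzMap.sub_apply, SchwartzMap.smul_apply,
        Pool.Agent.R308.OBM.cm_apply, h, smul_eq_mul]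
      ring
  exact main Finset.univ

/-- weighted representation of a test function -/
theorem rep (q : E d) (η : 𝓢(E d, ℂ)) (hm : Measurable (wt (d := d)))
    (hb : ∀ x : E d, ‖wt x‖ ≤ 1) (hw : ∀ x : E d, conj (bt x) * wt x = 1) :
    ∃ (n : ℕ) (χ : ℕ → ℕ → 𝓢(E d, ℂ)), ∀ c ζ : ℂ, Adm c ζ → ∀ v : L2 d,
      ⟪Yv q n χ c ζ, Wo v⟫_ℂ = ⟪toL (fun ξ => ex q c ζ ξ * η ξ), v⟫_ℂ := by
  obtain ⟨χ₀, hχ₀⟩ := btS η
  obtain ⟨n, χ, hχ⟩ := Pool.Agent.R308.OBM.stM d q χ₀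
  refine ⟨n, χ, fun c ζ hA v => ?_⟩
  have k1 := exS_int q c ζ hA χ₀
  have k2 := exS_memLp q c ζ hA χ₀
  have e1 : (Yv q n χ c ζ : E d → ℂ) =ᵐ[volume]
      fun x => bt x * (𝓕⁻ (toL (fun ξ => ex q c ζ ξ * χ₀ ξ)) : L2 d) x := by
    have h1 := fourierInv_coe_ae (Phi_int q n χ c ζ hA) (Phi_memLp q n χ c ζ hA)
    have h2 := fourierInv_coe_ae k1 k2
    rw [Yv, toL_eq (Phi_memLp q n χ c ζ hA), toL_eq k2]
    filter_upwards [h1, h2] with x h1 h2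
    rw [h1, h2, hχ c ζ hA x]
    rfl
  have e2 : ⟪Yv q n χ c ζ, Wo v⟫_ℂ =
      ⟪(𝓕⁻ (toL (fun ξ => ex q c ζ ξ * χ₀ ξ)) : L2 d), 𝓕⁻ (op wt v)⟫_ℂ := by
    rw [inner_eq_integral, inner_eq_integral]
    apply integral_congr_ae
    filter_upwards [e1, op_coe hm hb (𝓕⁻ (op wt v))] with x h1 h2
    rw [h1, Wo, h2, map_mul]
    have := hw x
    calc conj (bt x) * conj ((𝓕⁻ (toL (fun ξ => ex q c ζ ξ * χ₀ ξ)) : L2 d) x) *
        (wt x * (𝓕⁻ (op wt v) : L2 d) x) = (conj (bt x) * wt x) *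
        (conj ((𝓕⁻ (toL (fun ξ => ex q c ζ ξ * χ₀ ξ)) : L2 d) x) * (𝓕⁻ (op wt v) : L2 d) x) := by ring
      _ = _ := by rw [this, one_mul]
  have e3 : ⟪(𝓕⁻ (toL (fun ξ => ex q c ζ ξ * χ₀ ξ)) : L2 d), 𝓕⁻ (op wt v)⟫_ℂ =
      ⟪toL (fun ξ => ex q c ζ ξ * χ₀ ξ), op wt v⟫_ℂ :=
    (Lp.fourierTransformₗᵢ (E d) ℂ).symm.inner_map_map _ _
  rw [e2, e3, inner_eq_integral, inner_eq_integral]
  apply integral_congr_ae
  filter_upwards [toL_coe k2, toL_coe (exS_memLp q c ζ hA η), op_coe hm hb v] with x h1 h2 h3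
  rw [h1, h2, h3, hχ₀]
  simp only [map_mul]
  have := hw x
  calc conj (ex q c ζ x) * (conj (bt x) * conj (η x)) * (wt x * v x) =
      (conj (bt x) * wt x) * (conj (ex q c ζ x) * conj (η x) * v x) := by ring
    _ = _ := by rw [this, one_mul]

/-- pairing with `h` on the Fourier side -/
theorem pair_eq (q : E d) (n : ℕ) (χ : ℕ → ℕ → 𝓢(E d, ℂ)) (c ζ : ℂ) (hA : Adm c ζ) (h : L2 d) :
    ⟪h, Yv q n χ c ζ⟫_ℂ = ∫ ξ, conj ((𝓕 h : L2 d) ξ) * Phi q n χ c ζ ξ := by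
  have e1 : ⟪h, Yv q n χ c ζ⟫_ℂ = ⟪𝓕 h, toL (Phi q n χ c ζ)⟫_ℂ := by
    have h3 := Lp.inner_fourier_eq h (Yv q n χ c ζ)
    rw [Yv, fourier_fourierInv_eq] at h3
    rw [Yv]
    exact h3.symm
  rw [e1, inner_eq_integral]
  apply integral_congr_ae
  filter_upwards [toL_coe (Phi_memLp q n χ c ζ hA)] with x h1
  rw [h1]

theorem pair_sum (q : E d) (n : ℕ) (χ : ℕ → ℕ → 𝓢(E d, ℂ)) (c ζ : ℂ) (hA : Adm c ζ) (h : L2 d) :
    ⟪h, Yv q n χ c ζ⟫_ℂ = ∑ k ∈ Finset.range n, ∑ l ∈ Finset.range n, c ^ k * ζ ^ l *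
      ∫ ξ, conj ((𝓕 h : L2 d) ξ) * (ex q c ζ ξ * χ k l ξ) := by
  rw [pair_eq q n χ c ζ hA]
  have hint : ∀ η : 𝓢(E d, ℂ), Integrable (fun ξ => conj ((𝓕 h : L2 d) ξ) * (ex q c ζ ξ * η ξ)) := by
    intro η
    have h3 : MemLp (fun x => conj ((𝓕 h : L2 d) x)) 2 (volume : Measure (E d)) := by
      have h0 := Lp.memLp (𝓕 h : L2 d)
      refine h0.norm.of_le (Complex.continuous_conj.comp_aestronglyMeasurable h0.1)
        (ae_of_all _ fun x => ?_)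
      rw [RCLike.norm_conj, norm_norm]
    have h4 := (exS_memLp q c ζ hA η).mul (p := 2) (r := 1) h3
    exact memLp_one_iff_integrable.1 h4
  have e1 : ∀ ξ, conj ((𝓕 h : L2 d) ξ) * Phi q n χ c ζ ξ = ∑ k ∈ Finset.range n,
      ∑ l ∈ Finset.range n, c ^ k * ζ ^ l * (conj ((𝓕 h : L2 d) ξ) * (ex q c ζ ξ * χ k l ξ)) := by
    intro ξ
    rw [Phi, poly, Finset.mul_sum, Finset.mul_sum]
    apply Finset.sum_congr rfl
    intro k _
    rw [Finset.mul_sum, Finset.mul_sum]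
    apply Finset.sum_congr rfl
    intro l _
    ring
  simp_rw [e1]
  rw [integral_finsetSum _ (fun k _ => integrable_finsetSum _ fun l _ => (hint _).const_mul _)]
  apply Finset.sum_congr rfl
  intro k _
  rw [integral_finsetSum _ (fun l _ => (hint _).const_mul _)]
  apply Finset.sum_congr rfl
  intro l _
  rw [integral_const_mul]

end Pool.Agent.R853.Obs
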