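import Pool.Agent.R853.Obs.Core4

set_option autoImplicit false

open MeasureTheory FourierTransform SchwartzMap Complex Filter Topology
open scoped ENNReal InnerProductSpace ComplexConjugate ContDiff

namespace Pool.Agent.R853.Obs

variable {d : ℕ}

/-! ### continuity in time of the test vectors -/

theorem norm_sq_toL {f : E d → ℂ} (h : MemLp f 2 (volume : Measure (E d))) :
    ‖toL f‖ ^ 2 = ∫ x, ‖f x‖ ^ 2 := by
  have h1 : ((‖toL f‖ ^ 2 : ℝ) : ℂ) = ((∫ x, ‖f x‖ ^ 2 : ℝ) : ℂ) := by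
    have h2 := inner_self_eq_norm_sq_to_K (𝕜 := ℂ) (toL f)
    rw [inner_eq_integral] at h2
    have h3 : ∫ x, conj ((toL f) x) * (toL f) x = ((∫ x, ‖f x‖ ^ 2 : ℝ) : ℂ) := by
      rw [← integral_complex_ofReal]
      apply integral_congr_ae
      filter_upwards [toL_coe h] with x hx
      rw [hx, ← Complex.normSq_eq_conj_mul_self, Complex.normSq_eq_norm_sq]
    rw [Complex.ofReal_pow, ← h3, h2]
    rfl
  exact_mod_cast h1

theorem toL_sub {f g : E d → ℂ} (hf : MemLp f 2 (volume : Measure (E d)))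
    (hg : MemLp g 2 (volume : Measure (E d))) : toL f - toL g = toL (fun x => f x - g x) := by
  have h2 : MemLp (fun x => f x - g x) 2 (volume : Measure (E d)) := hf.sub hg
  rw [toL_eq hf, toL_eq hg, toL_eq h2, ← MemLp.toLp_sub]
  rfl

theorem toL_add {f g : E d → ℂ} (hf : MemLp f 2 (volume : Measure (E d)))
    (hg : MemLp g 2 (volume : Measure (E d))) : toL (fun x => f x + g x) = toL f + toL g := by
  have h2 : MemLp (fun x => f x + g x) 2 (volume : Measure (E d)) := hf.add hg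
  rw [toL_eq hf, toL_eq hg, toL_eq h2, ← MemLp.toLp_add]
  rfl

theorem toL_smul (α : ℂ) {f : E d → ℂ} (hf : MemLp f 2 (volume : Measure (E d))) :
    toL (fun x => α * f x) = α • toL f := by
  have h2 : MemLp (fun x => α * f x) 2 (volume : Measure (E d)) := hf.const_mul α
  rw [toL_eq hf, toL_eq h2, ← MemLp.toLp_const_smul]
  rfl

theorem toL_sum {ι : Type*} (s : Finset ι) (f : ι → E d → ℂ)
    (hf : ∀ i, MemLp (f i) 2 (volume : Measure (E d))) :
    toL (fun x => ∑ i ∈ s, f i x) = ∑ i ∈ s, toL (f i) := by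
  classical
  induction s using Finset.induction_on with
  | empty =>
    have h0 : MemLp (fun _ : E d => (0 : ℂ)) 2 (volume : Measure (E d)) := MemLp.zero
    simp only [Finset.sum_empty]
    rw [toL_eq h0]
    exact MemLp.toLp_zero _
  | insert a s ha ih =>
    rw [Finset.sum_insert ha, ← ih, ← toL_add (hf a) (memLp_finsetSum _ fun i _ => hf i)]
    congr 1
    funext x
    rw [Finset.sum_insert ha]

/-- the parameter of time `t` -/
noncomputable def ct (t : ℝ) : ℂ := 4 * Real.pi ^ 2 * t * I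

theorem ct_re (t : ℝ) : (ct t).re = 0 := by
  have : ct t = ((4 * Real.pi ^ 2 * t : ℝ) : ℂ) * I := by
    unfold ct
    push_cast
    ring
  rw [this, Complex.re_ofReal_mul, Complex.I_re, mul_zero]

theorem adm_ct (t : ℝ) : Adm (ct t) 0 := Or.inr ⟨(ct_re t).ge, rfl⟩

theorem norm_ex_ct (q : E d) (t : ℝ) (ξ : E d) : ‖ex q (ct t) 0 ξ‖ = 1 := by
  rw [ex, Complex.norm_exp]
  have : (-ct t * (‖ξ‖ : ℂ) ^ 2 - 0 * (2 * Real.pi * I * (⟪q, ξ⟫_ℝ : ℂ))) =
      ((-(4 * Real.pi ^ 2 * t * ‖ξ‖ ^ 2) : ℝ) : ℂ) * I := by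
    unfold ct
    push_cast
    ring
  rw [this, Complex.re_ofReal_mul, Complex.I_re, mul_zero, Real.exp_zero]

theorem cont_exS (q : E d) (χ : 𝓢(E d, ℂ)) :
    Continuous (fun t : ℝ => toL (fun ξ => ex q (ct t) 0 ξ * χ ξ)) := by
  rw [continuous_iff_continuousAt]
  intro s
  have hG : Continuous (fun t : ℝ => ∫ ξ, ‖ex q (ct t) 0 ξ * χ ξ - ex q (ct s) 0 ξ * χ ξ‖ ^ 2) := by
    apply continuous_of_dominated (bound := fun ξ => (2 * ‖χ ξ‖) ^ 2)
    · intro t
      have h1 : Continuous (fun ξ => ex q (ct t) 0 ξ * χ ξ - ex q (ct s) 0 ξ * χ ξ) :=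
        ((ex_cont q _ _).mul χ.continuous).sub ((ex_cont q _ _).mul χ.continuous)
      exact (h1.norm.pow 2).aestronglyMeasurable
    · intro t
      refine ae_of_all _ fun ξ => ?_
      rw [Real.norm_of_nonneg (by positivity)]
      apply pow_le_pow_left₀ (norm_nonneg _)
      calc ‖ex q (ct t) 0 ξ * χ ξ - ex q (ct s) 0 ξ * χ ξ‖
          ≤ ‖ex q (ct t) 0 ξ * χ ξ‖ + ‖ex q (ct s) 0 ξ * χ ξ‖ := norm_sub_le _ _
        _ = 2 * ‖χ ξ‖ := by
          rw [norm_mul, norm_mul, norm_ex_ct, norm_ex_ct]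
          ring
    · have h2 := (χ.memLp 2 volume).integrable_norm_pow (by norm_num)
      have h3 : (fun ξ => (2 * ‖χ ξ‖) ^ 2) = fun ξ => 4 * ‖χ ξ‖ ^ 2 := by
        funext ξ
        ring
      rw [h3]
      exact Integrable.const_mul (by simpa using h2) _
    · refine ae_of_all _ fun ξ => ?_
      have h4 : Continuous (fun t : ℝ => ex q (ct t) 0 ξ) := by
        unfold ex ct
        fun_prop
      exact (((h4.mul continuous_const).sub continuous_const).norm.pow 2)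
  have h0 : (∫ ξ, ‖ex q (ct s) 0 ξ * χ ξ - ex q (ct s) 0 ξ * χ ξ‖ ^ 2) = 0 := by simp
  have h5 : ∀ t, ‖toL (fun ξ => ex q (ct t) 0 ξ * χ ξ) - toL (fun ξ => ex q (ct s) 0 ξ * χ ξ)‖ ^ 2 =
      ∫ ξ, ‖ex q (ct t) 0 ξ * χ ξ - ex q (ct s) 0 ξ * χ ξ‖ ^ 2 := by
    intro t
    rw [toL_sub (exS_memLp q _ _ (adm_ct t) χ) (exS_memLp q _ _ (adm_ct s) χ), norm_sq_toL]
    exact (exS_memLp q _ _ (adm_ct t) χ).sub (exS_memLp q _ _ (adm_ct s) χ)
  have h6 : Tendsto (fun t : ℝ =>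
      ‖toL (fun ξ => ex q (ct t) 0 ξ * χ ξ) - toL (fun ξ => ex q (ct s) 0 ξ * χ ξ)‖ ^ 2) (𝓝 s) (𝓝 0) := by
    simp_rw [h5]
    have := hG.tendsto s
    rwa [h0] at this
  rw [ContinuousAt, tendsto_iff_norm_sub_tendsto_zero]
  have h7 := h6.sqrt
  simp only [Real.sqrt_zero] at h7
  refine h7.congr fun t => ?_
  rw [Real.sqrt_sq (norm_nonneg _)]

theorem cont_Yv (q : E d) (n : ℕ) (χ : ℕ → ℕ → 𝓢(E d, ℂ)) :
    Continuous (fun t : ℝ => Yv q n χ (ct t) 0) := by
  unfold Yv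
  refine (Lp.fourierTransformₗᵢ (E d) ℂ).symm.continuous.comp ?_
  have h1 : ∀ t : ℝ, toL (Phi q n χ (ct t) 0) = ∑ k ∈ Finset.range n, ∑ l ∈ Finset.range n,
      ((ct t) ^ k * (0 : ℂ) ^ l) • toL (fun ξ => ex q (ct t) 0 ξ * χ k l ξ) := by
    intro t
    have hm := fun k l => exS_memLp q _ _ (adm_ct t) (χ k l)
    have e1 : Phi q n χ (ct t) 0 = fun ξ => ∑ k ∈ Finset.range n, ∑ l ∈ Finset.range n,
        ((ct t) ^ k * (0 : ℂ) ^ l) * (ex q (ct t) 0 ξ * χ k l ξ) := by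
      funext ξ
      rw [Phi, poly, Finset.mul_sum]
      apply Finset.sum_congr rfl
      intro k _
      rw [Finset.mul_sum]
      apply Finset.sum_congr rfl
      intro l _
      ring
    rw [e1, toL_sum _ _ (fun k => memLp_finsetSum _ fun l _ => (hm k l).const_mul _)]
    apply Finset.sum_congr rfl
    intro k _
    rw [toL_sum _ _ (fun l => (hm k l).const_mul _)]
    apply Finset.sum_congr rfl
    intro l _
    rw [toL_smul _ (hm k l)]
  simp_rw [h1]
  apply continuous_finsetSum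
  intro k _
  apply continuous_finsetSum
  intro l _
  have h2 : Continuous (fun t : ℝ => (ct t) ^ k * (0 : ℂ) ^ l) := by
    unfold ct
    fun_prop
  exact h2.smul (cont_exS q (χ k l))

end Pool.Agent.R853.Obs
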