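import Pool.Agent.R853.Obs.Core5

set_option autoImplicit false

open MeasureTheory FourierTransform SchwartzMap Complex Filter Topology
open scoped ENNReal InnerProductSpace ComplexConjugate ContDiff

namespace Pool.Agent.R853.Obs

variable {d : ℕ}

/-- the phase of the free Schroedinger evolution -/
noncomputable def ph (t : ℝ) (ξ : E d) : ℂ :=
  Complex.exp (((4 * Real.pi ^ 2 * t * ‖ξ‖ ^ 2 : ℝ) : ℂ) * I)

theorem ph_cont (t : ℝ) : Continuous (ph (d := d) t) := by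
  unfold ph
  fun_prop

theorem ph_meas (t : ℝ) : Measurable (ph (d := d) t) := (ph_cont t).measurable

theorem ph_norm (t : ℝ) (ξ : E d) : ‖ph t ξ‖ = 1 := by
  unfold ph
  rw [Complex.norm_exp, Complex.re_ofReal_mul, Complex.I_re, mul_zero, Real.exp_zero]

theorem ph_norm_le (t : ℝ) (ξ : E d) : ‖ph t ξ‖ ≤ 1 := (ph_norm t ξ).le

theorem phc_meas (t : ℝ) : Measurable (fun ξ : E d => conj (ph t ξ)) :=
  (Complex.continuous_conj.comp (ph_cont t)).measurable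

theorem phc_norm_le (t : ℝ) (ξ : E d) : ‖conj (ph t ξ)‖ ≤ 1 := by
  rw [RCLike.norm_conj]
  exact ph_norm_le t ξ

theorem ph_mul_conj (t : ℝ) (ξ : E d) : ph t ξ * conj (ph t ξ) = 1 := by
  rw [Complex.mul_conj, Complex.normSq_eq_norm_sq, ph_norm]
  simp

/-- the shifted and modulated test function -/
noncomputable def pfun (y ξ₀ : E d) (ψ : 𝓢(E d, ℂ)) (x : E d) : ℂ := ch ξ₀ (x - y) * ψ (x - y)

theorem pfun_int (y ξ₀ : E d) (ψ : 𝓢(E d, ℂ)) : Integrable (pfun y ξ₀ ψ) := by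
  have h1 : Integrable (fun x => ch ξ₀ x * ψ x) :=
    ψ.integrable.bdd_mul (c := 1) (ch_meas ξ₀).aestronglyMeasurable (ae_of_all _ (ch_norm_le ξ₀))
  exact h1.comp_sub_right y

theorem pfun_memLp (y ξ₀ : E d) (ψ : 𝓢(E d, ℂ)) : MemLp (pfun y ξ₀ ψ) 2 (volume : Measure (E d)) := by
  have h3 : MemLp (ch ξ₀) ⊤ (volume : Measure (E d)) :=
    memLp_top_of_bound (ch_meas ξ₀).aestronglyMeasurable 1 (ae_of_all _ (ch_norm_le ξ₀))
  have h1 : MemLp (fun x => ch ξ₀ x * ψ x) 2 (volume : Measure (E d)) :=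
    (ψ.memLp 2 volume).mul (p := ⊤) (r := 2) h3
  exact h1.comp_measurePreserving (measurePreserving_sub_right volume y)

theorem fourier_pfun (y ξ₀ : E d) (ψ : 𝓢(E d, ℂ)) (ξ : E d) :
    𝓕 (pfun y ξ₀ ψ) ξ = conj (ch y ξ) * 𝓕 ψ (ξ - ξ₀) := by
  rw [SchwartzMap.fourier_coe, Real.fourier_eq', Real.fourier_eq', ← integral_const_mul]
  have e1 := integral_sub_right_eq_self (μ := (volume : Measure (E d)))
    (fun x => Complex.exp (((-2 * Real.pi * ⟪x + y, ξ⟫_ℝ : ℝ) : ℂ) * I) • (ch ξ₀ x * ψ x)) y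
  simp only [sub_add_cancel] at e1
  unfold pfun
  rw [e1]
  apply integral_congr_ae
  filter_upwards with x
  simp only [smul_eq_mul]
  rw [ch, ch, ← Complex.exp_conj, ← mul_assoc, ← mul_assoc, ← Complex.exp_add, ← Complex.exp_add]
  congr 2
  simp only [map_mul, Complex.conj_ofReal, Complex.conj_I, map_ofNat]
  rw [inner_add_left, inner_sub_right, real_inner_comm ξ₀ x]
  push_cast
  ring

theorem galilei (t : ℝ) (x₀ ξ₀ y q : E d) (hy : y = x₀ - (4 * Real.pi * t) • ξ₀) (ψ : 𝓢(E d, ℂ)) :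
    ∃ κ : ℂ, ∀ F : L2 d, ⟪toL (fun ξ => ex q (ct t) 0 ξ * (𝓕 ψ) ξ), Tz x₀ ξ₀ F⟫_ℂ =
      κ * ⟪toL (pfun y ξ₀ ψ), 𝓕⁻ (op (ph t) F)⟫_ℂ := by
  refine ⟨ph t ξ₀ * conj (ch x₀ ξ₀), fun F => ?_⟩
  have h3 := Lp.inner_fourier_eq (toL (pfun y ξ₀ ψ)) (𝓕⁻ (op (ph t) F))
  rw [fourier_fourierInv_eq] at h3
  rw [← h3, inner_eq_integral, inner_eq_integral, ← integral_const_mul]
  have a1 : ∀ᵐ ξ ∂(volume : Measure (E d)),
      conj ((toL (fun ξ => ex q (ct t) 0 ξ * (𝓕 ψ) ξ)) ξ) * (Tz x₀ ξ₀ F) ξ =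
      (fun ξ' => conj (ex q (ct t) 0 (ξ' - ξ₀) * (𝓕 ψ) (ξ' - ξ₀)) *
        (ch x₀ (ξ' - ξ₀) * F ξ')) (ξ + ξ₀) := by
    filter_upwards [toL_coe (exS_memLp q (ct t) 0 (adm_ct t) (𝓕 ψ)),
      op_coe (ch_meas x₀) (ch_norm_le x₀) (sh ξ₀ F), sh_coe ξ₀ F] with ξ b1 b2 b3
    rw [b1, Tz, b2, b3, add_sub_cancel_right]
  have e0 := integral_add_right_eq_self (μ := (volume : Measure (E d)))
    (fun ξ' => conj (ex q (ct t) 0 (ξ' - ξ₀) * (𝓕 ψ) (ξ' - ξ₀)) * (ch x₀ (ξ' - ξ₀) * F ξ')) ξ₀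
  refine (integral_congr_ae a1).trans (e0.trans ?_)
  apply integral_congr_ae
  have a2 := fourier_coe_ae (pfun_int y ξ₀ ψ) (pfun_memLp y ξ₀ ψ)
  rw [← toL_eq] at a2
  filter_upwards [a2, op_coe (ph_meas t) (ph_norm_le t) F] with ξ b1 b2
  rw [b1, b2, fourier_pfun]
  simp only [map_mul, Complex.conj_conj]
  have key : conj (ex q (ct t) 0 (ξ - ξ₀)) * ch x₀ (ξ - ξ₀) =
      ph t ξ₀ * conj (ch x₀ ξ₀) * (ch y ξ * ph t ξ) := by
    rw [ex, ch, ch, ch, ph, ph, ← Complex.exp_conj, ← Complex.exp_conj, ← Complex.exp_add,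
      ← Complex.exp_add, ← Complex.exp_add, ← Complex.exp_add]
    congr 1
    rw [hy, ct]
    simp only [map_mul, map_neg, map_pow, Complex.conj_ofReal, Complex.conj_I, map_ofNat,
      zero_mul, sub_zero, inner_sub_left, inner_sub_right, inner_smul_left]
    have hn : (‖ξ - ξ₀‖ : ℂ) ^ 2 = (‖ξ‖ : ℂ) ^ 2 - 2 * (⟪ξ₀, ξ⟫_ℝ : ℂ) + (‖ξ₀‖ : ℂ) ^ 2 := by
      have := norm_sub_sq_real ξ ξ₀
      rw [real_inner_comm ξ₀ ξ] at this
      exact_mod_cast congrArg (fun r : ℝ => (r : ℂ)) this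
    rw [hn]
    simp only [conj_trivial]
    push_cast
    ring
  linear_combination (conj ((𝓕 ψ) (ξ - ξ₀)) * F ξ) * key

theorem ind_meas {S : Set (E d)} (hS : MeasurableSet S) :
    Measurable (S.indicator (1 : E d → ℂ)) := measurable_one.indicator hS

theorem ind_norm_le (S : Set (E d)) (x : E d) : ‖S.indicator (1 : E d → ℂ) x‖ ≤ 1 := by
  by_cases h : x ∈ S
  · simp [h]
  · simp [h]

/-- the state observed at time `t`, transported back to time `0` -/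
noncomputable def obs (S : Set (E d)) (t : ℝ) (F : L2 d) : L2 d :=
  op (fun ξ => conj (ph t ξ)) (𝓕 (op (S.indicator 1) (𝓕⁻ (op (ph t) F))))

theorem norm_fourier (f : L2 d) : ‖(𝓕 f : L2 d)‖ = ‖f‖ :=
  (Lp.fourierTransformₗᵢ (E d) ℂ).norm_map f

theorem norm_fourierInv (f : L2 d) : ‖(𝓕⁻ f : L2 d)‖ = ‖f‖ :=
  (Lp.fourierTransformₗᵢ (E d) ℂ).symm.norm_map f

theorem norm_obs (S : Set (E d)) (t : ℝ) (F : L2 d) :
    ‖obs S t F‖ ≤ ‖op (S.indicator 1) (𝓕⁻ (op (ph t) F))‖ := by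
  rw [obs]
  refine (norm_op_le (phc_meas t) (phc_norm_le t) _).trans (le_of_eq ?_)
  exact norm_fourier _

theorem obs_back (S : Set (E d)) (t : ℝ) (F : L2 d) :
    𝓕⁻ (op (ph t) (obs S t F)) = op (S.indicator 1) (𝓕⁻ (op (ph t) F)) := by
  have h1 : op (ph t) (obs S t F) = 𝓕 (op (S.indicator 1) (𝓕⁻ (op (ph t) F))) := by
    apply Lp.ext
    filter_upwards [op_coe (ph_meas t) (ph_norm_le t) (obs S t F),
      op_coe (phc_meas t) (phc_norm_le t) (𝓕 (op (S.indicator 1) (𝓕⁻ (op (ph t) F))))] with ξ b1 b2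
    rw [b1, obs, b2, ← mul_assoc, ph_mul_conj, one_mul]
  rw [h1, fourierInv_fourier_eq]

theorem pair_obs {S : Set (E d)} (hS : MeasurableSet S) (t : ℝ) (x₀ ξ₀ y q : E d)
    (hy : y = x₀ - (4 * Real.pi * t) • ξ₀) (ψ : 𝓢(E d, ℂ)) (hψ : ∀ x, ψ x ≠ 0 → x + y ∈ S)
    (F : L2 d) :
    ⟪toL (fun ξ => ex q (ct t) 0 ξ * (𝓕 ψ) ξ), Tz x₀ ξ₀ (obs S t F)⟫_ℂ =
      ⟪toL (fun ξ => ex q (ct t) 0 ξ * (𝓕 ψ) ξ), Tz x₀ ξ₀ F⟫_ℂ := by
  obtain ⟨κ, hκ⟩ := galilei t x₀ ξ₀ y q hy ψ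
  rw [hκ, hκ, obs_back]
  congr 1
  rw [inner_eq_integral, inner_eq_integral]
  apply integral_congr_ae
  filter_upwards [toL_coe (pfun_memLp y ξ₀ ψ),
    op_coe (ind_meas hS) (ind_norm_le S) (𝓕⁻ (op (ph t) F))] with x b1 b2
  rw [b1, b2, pfun]
  by_cases h : ψ (x - y) = 0
  · simp [h]
  · have := hψ _ h
    rw [sub_add_cancel] at this
    simp [this]

end Pool.Agent.R853.Obs
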