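import Pool.Agent.R853.Obs.Core6
import Pool.Agent.R157.OBA
import Pool.Agent.R715.OBU

set_option autoImplicit false

open MeasureTheory FourierTransform SchwartzMap Complex Filter Topology
open scoped ENNReal InnerProductSpace ComplexConjugate ContDiff

namespace Pool.Agent.R853.Obs

variable {d : ℕ}

theorem Wo_smul (hm : Measurable (wt (d := d))) (hb : ∀ x : E d, ‖wt x‖ ≤ 1) (α : ℂ) (v : L2 d) :
    Wo (α • v) = α • Wo v := by
  rw [Wo, op_smul hm hb]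
  have h1 : (𝓕⁻ (α • op wt v) : L2 d) = α • 𝓕⁻ (op wt v) :=
    map_smul (Lp.fourierTransformₗᵢ (E d) ℂ).symm α (op wt v)
  rw [h1, op_smul hm hb, Wo]

/-- the representation property of a family of test vectors -/
def Rep (q : E d) (η : 𝓢(E d, ℂ)) (n : ℕ) (χ : ℕ → ℕ → 𝓢(E d, ℂ)) : Prop :=
  ∀ c ζ : ℂ, Adm c ζ → ∀ v : L2 d,
    ⟪Yv q n χ c ζ, Wo v⟫_ℂ = ⟪toL (fun ξ => ex q c ζ ξ * η ξ), v⟫_ℂ

/-- the limit state is orthogonal to the test vectors at good times -/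
theorem limit_zero (U : Ultrafilter ℕ) (v w : ℕ → L2 d) (s : ℕ → ℝ) (t B : ℝ)
    (hs : Tendsto s U (𝓝 t)) (hv : ∀ m, ‖Wo (v m)‖ ≤ B)
    (hw : Tendsto (fun m => ‖Wo (w m)‖) U (𝓝 0)) (h : L2 d)
    (hh : ∀ φ : L2 d, Tendsto (fun m => ⟪φ, Wo (v m)⟫_ℂ) U (𝓝 ⟪φ, h⟫_ℂ))
    (q : E d) (η : 𝓢(E d, ℂ)) (n : ℕ) (χ : ℕ → ℕ → 𝓢(E d, ℂ)) (hr : Rep q η n χ)
    (he : ∀ᶠ m in (U : Filter ℕ), ⟪toL (fun ξ => ex q (ct (s m)) 0 ξ * η ξ), w m⟫_ℂ =
      ⟪toL (fun ξ => ex q (ct (s m)) 0 ξ * η ξ), v m⟫_ℂ) :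
    ⟪Yv q n χ (ct t) 0, h⟫_ℂ = 0 := by
  have c1 : Tendsto (fun m => Yv q n χ (ct (s m)) 0) U (𝓝 (Yv q n χ (ct t) 0)) :=
    ((cont_Yv q n χ).tendsto t).comp hs
  have l1 : Tendsto (fun m => ⟪Yv q n χ (ct (s m)) 0, Wo (w m)⟫_ℂ) U (𝓝 0) := by
    rw [tendsto_zero_iff_norm_tendsto_zero]
    have h1 : Tendsto (fun m => ‖Yv q n χ (ct (s m)) 0‖ * ‖Wo (w m)‖) U (𝓝 0) := by
      have := c1.norm.mul hw
      rwa [mul_zero] at this
    exact squeeze_zero (fun m => norm_nonneg _) (fun m => norm_inner_le_norm _ _) h1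
  have l2 : Tendsto (fun m => ⟪Yv q n χ (ct t) 0 - Yv q n χ (ct (s m)) 0, Wo (v m)⟫_ℂ) U (𝓝 0) := by
    rw [tendsto_zero_iff_norm_tendsto_zero]
    have h1 : Tendsto (fun m => ‖Yv q n χ (ct t) 0 - Yv q n χ (ct (s m)) 0‖ * B) U (𝓝 0) := by
      have h2 : Tendsto (fun m => ‖Yv q n χ (ct t) 0 - Yv q n χ (ct (s m)) 0‖) U (𝓝 0) := by
        have := (tendsto_const_nhds (x := Yv q n χ (ct t) 0)).sub c1
        rw [sub_self] at this
        have := this.norm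
        rwa [norm_zero] at this
      have := h2.mul_const B
      rwa [zero_mul] at this
    refine squeeze_zero (fun m => norm_nonneg _) (fun m => ?_) h1
    exact (norm_inner_le_norm _ _).trans (mul_le_mul_of_nonneg_left (hv m) (norm_nonneg _))
  have l3 : Tendsto (fun m => ⟪Yv q n χ (ct t) 0, Wo (v m)⟫_ℂ) U (𝓝 0) := by
    have l4 := l2.add l1
    rw [add_zero] at l4
    refine l4.congr' ?_
    filter_upwards [he] with m hm
    rw [hr _ _ (adm_ct (s m)), hm, ← hr _ _ (adm_ct (s m)), ← inner_add_left, sub_add_cancel]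
  exact tendsto_nhds_unique (hh _) l3

theorem memLp_conj_fourier (h : L2 d) :
    MemLp (fun ξ => conj ((𝓕 h : L2 d) ξ)) 2 (volume : Measure (E d)) := by
  have h0 := Lp.memLp (𝓕 h : L2 d)
  refine h0.norm.of_le (Complex.continuous_conj.comp_aestronglyMeasurable h0.1)
    (ae_of_all _ fun x => ?_)
  rw [RCLike.norm_conj, norm_norm]

/-- continuation in `c` from an interval of the imaginary axis -/
theorem cont_c (h : L2 d) (q : E d) (n : ℕ) (χ : ℕ → ℕ → 𝓢(E d, ℂ)) (t₁ t₂ : ℝ) (h12 : t₁ < t₂)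
    (hz : ∀ t : ℝ, t₁ < t → t < t₂ → ⟪Yv q n χ (ct t) 0, h⟫_ℂ = 0) :
    ⟪Yv q n χ 1 0, h⟫_ℂ = 0 := by
  have hH := memLp_conj_fourier h
  obtain ⟨G, hG⟩ : ∃ G : ℂ → ℂ, G = fun c => ∑ k ∈ Finset.range n, ∑ l ∈ Finset.range n,
      c ^ k * (0 : ℂ) ^ l * ∫ ξ, conj ((𝓕 h : L2 d) ξ) * (ex q c 0 ξ * χ k l ξ) := ⟨_, rfl⟩
  have hp : ∀ c : ℂ, Adm c 0 → G c = ⟪h, Yv q n χ c 0⟫_ℂ := by
    intro c hc
    rw [hG, pair_sum q n χ c 0 hc h]
  have g1 : ContinuousOn G {c : ℂ | 0 ≤ c.re} := by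
    rw [hG]
    refine continuousOn_finsetSum _ fun k _ => continuousOn_finsetSum _ fun l _ => ?_
    refine ContinuousOn.mul (by fun_prop) ?_
    exact (Pool.Agent.R157.OBA.stA1 d q _ hH (χ k l)).1
  have g2 : DifferentiableOn ℂ G {c : ℂ | 0 < c.re} := by
    rw [hG]
    refine DifferentiableOn.fun_sum fun k _ => DifferentiableOn.fun_sum fun l _ => ?_
    refine DifferentiableOn.mul (by fun_prop) ?_
    exact (Pool.Agent.R157.OBA.stA1 d q _ hH (χ k l)).2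
  have hpi : 0 < 4 * Real.pi ^ 2 := by positivity
  have g3 : ∀ t : ℝ, 4 * Real.pi ^ 2 * t₁ < t → t < 4 * Real.pi ^ 2 * t₂ → G (t * I) = 0 := by
    intro t ht1 ht2
    have e1 : (t : ℂ) * I = ct (t / (4 * Real.pi ^ 2)) := by
      rw [ct]
      have : (4 * (Real.pi : ℂ) ^ 2) ≠ 0 := by exact_mod_cast hpi.ne'
      push_cast
      field_simp
    rw [e1, hp _ (adm_ct _), ← inner_conj_symm, hz, map_zero]
    · rw [lt_div_iff₀ hpi]
      linarith
    · rw [div_lt_iff₀ hpi]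
      linarith
  have g4 := Pool.Agent.R715.OBU.stU G (4 * Real.pi ^ 2 * t₁) (4 * Real.pi ^ 2 * t₂)
    (mul_lt_mul_of_pos_left h12 hpi) g1 g2 g3 1 (by simp)
  have h1 : Adm (1 : ℂ) 0 := Or.inl (by simp)
  rw [← inner_conj_symm, ← hp 1 h1, g4, map_zero]

/-- continuation in `ζ` -/
theorem cont_z (h : L2 d) (q : E d) (n : ℕ) (χ : ℕ → ℕ → 𝓢(E d, ℂ)) (ε : ℝ) (hε : 0 < ε)
    (hz : ∀ s : ℝ, |s - 1| < ε → ⟪Yv q n χ 1 s, h⟫_ℂ = 0) :
    ⟪Yv q n χ 1 0, h⟫_ℂ = 0 := by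
  have hH := memLp_conj_fourier h
  obtain ⟨G, hG⟩ : ∃ G : ℂ → ℂ, G = fun ζ => ∑ k ∈ Finset.range n, ∑ l ∈ Finset.range n,
      (1 : ℂ) ^ k * ζ ^ l * ∫ ξ, conj ((𝓕 h : L2 d) ξ) * (ex q 1 ζ ξ * χ k l ξ) := ⟨_, rfl⟩
  have h1 : ∀ ζ, Adm (1 : ℂ) ζ := fun ζ => Or.inl (by simp)
  have hp : ∀ ζ : ℂ, G ζ = ⟪h, Yv q n χ 1 ζ⟫_ℂ := by
    intro ζ
    rw [hG, pair_sum q n χ 1 ζ (h1 ζ) h]
  have g2 : Differentiable ℂ G := by
    rw [hG]
    refine Differentiable.fun_sum fun k _ => Differentiable.fun_sum fun l _ => ?_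
    refine Differentiable.mul (by fun_prop) ?_
    exact Pool.Agent.R157.OBA.stA2 d q _ hH (χ k l)
  have g3 : ∀ s : ℝ, |s - 1| < ε → G s = 0 := by
    intro s hs
    rw [hp, ← inner_conj_symm, hz s hs, map_zero]
  have g5 : AnalyticOnNhd ℂ G Set.univ := (Complex.analyticOnNhd_univ_iff_differentiable).2 g2
  have g6 : ∃ᶠ z in 𝓝[≠] (1 : ℂ), G z = 0 := by
    have t1 : Tendsto (fun k : ℕ => (((1 + ε / (k + 2) : ℝ)) : ℂ)) atTop (𝓝[≠] (1 : ℂ)) := by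
      rw [tendsto_nhdsWithin_iff]
      constructor
      · have : Tendsto (fun k : ℕ => (1 + ε / (k + 2) : ℝ)) atTop (𝓝 1) := by
          have h3 : Tendsto (fun k : ℕ => ε / ((k : ℝ) + 2)) atTop (𝓝 0) :=
            (tendsto_natCast_atTop_atTop.atTop_add (tendsto_const_nhds (x := (2:ℝ)))).const_div_atTop ε
          simpa using h3.const_add 1
        have h4 : Tendsto (fun k : ℕ => (((1 + ε / (k + 2) : ℝ)) : ℂ)) atTop (𝓝 ((1 : ℝ) : ℂ)) :=
          (Complex.continuous_ofReal.tendsto 1).comp this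
        rwa [Complex.ofReal_one] at h4
      · refine Eventually.of_forall fun k => ?_
        have h5 : 0 < ε / ((k : ℝ) + 2) := by positivity
        intro h6
        rw [Set.mem_singleton_iff, ← Complex.ofReal_one, Complex.ofReal_inj] at h6
        linarith
    refine t1.frequently (Eventually.frequently (Eventually.of_forall fun k => ?_))
    apply g3
    have h5 : 0 < ε / ((k : ℝ) + 2) := by positivity
    rw [add_sub_cancel_left, abs_of_pos h5, div_lt_iff₀ (by positivity)]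
    nlinarith [Nat.cast_nonneg (α := ℝ) k]
  have g7 := g5.eqOn_zero_of_preconnected_of_frequently_eq_zero isPreconnected_univ
    (Set.mem_univ (1 : ℂ)) g6 (Set.mem_univ (0 : ℂ))
  rw [← inner_conj_symm, ← hp 0, g7]
  simp

/-- a finite closed cover of an open set contains an open piece -/
theorem fin_cover {X ι : Type*} [TopologicalSpace X] (s : Finset ι) (K : ι → Set X)
    (hK : ∀ i, IsClosed (K i)) : ∀ V : Set X, IsOpen V → V.Nonempty → (V ⊆ ⋃ i ∈ s, K i) →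
      ∃ i ∈ s, ∃ V' : Set X, IsOpen V' ∧ V'.Nonempty ∧ V' ⊆ V ∧ V' ⊆ K i := by
  classical
  induction s using Finset.induction_on with
  | empty =>
    intro V _ hV hc
    obtain ⟨x, hx⟩ := hV
    simpa using hc hx
  | insert a s ha ih =>
    intro V hVo hV hc
    by_cases h : V ⊆ K a
    · exact ⟨a, Finset.mem_insert_self a s, V, hVo, hV, subset_rfl, h⟩
    · rw [Set.not_subset] at h
      obtain ⟨x, hx, hxa⟩ := h
      obtain ⟨i, hi, V', h1, h2, h3, h4⟩ := ih (V \ K a) (hVo.sdiff (hK a)) ⟨x, hx, hxa⟩ (by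
        intro y hy
        have := hc hy.1
        rw [Finset.set_biUnion_insert] at this
        exact this.resolve_left hy.2)
      exact ⟨i, Finset.mem_insert_of_mem hi, V', h1, h2, h3.trans Set.sdiff_subset, h4⟩

end Pool.Agent.R853.Obs
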