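import Pool.Agent.R853.Obs.Core7
import Pool.Agent.R289.OBW

set_option autoImplicit false

open MeasureTheory FourierTransform SchwartzMap Complex Filter Topology
open scoped ENNReal InnerProductSpace ComplexConjugate ContDiff

namespace Pool.Agent.R853.Obs

variable {d : ℕ}

/-- a family of translated bumps -/
theorem exists_bump (ρ : ℝ) (hρ : 0 < ρ) : ∃ b : E d → 𝓢(E d, ℂ),
    (∀ p x, b p x ≠ 0 → ‖x - p‖ < ρ) ∧
    (∀ p ξ, (𝓕 (b p)) ξ = conj (ch p ξ) * (𝓕 (b 0)) ξ) ∧ b 0 0 ≠ 0 := by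
  let f : ContDiffBump (0 : E d) := ⟨ρ / 2, ρ, by positivity, by linarith⟩
  have hc : ∀ p : E d, HasCompactSupport (fun x : E d => ((f (x - p) : ℝ) : ℂ)) := by
    intro p
    have h1 : HasCompactSupport (fun x : E d => f (x - p)) :=
      f.hasCompactSupport.comp_homeomorph (Homeomorph.subRight p)
    exact h1.comp_left Complex.ofReal_zero
  have hs : ∀ p : E d, ContDiff ℝ ∞ (fun x : E d => ((f (x - p) : ℝ) : ℂ)) := by
    intro p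
    exact Complex.ofRealCLM.contDiff.comp (f.contDiff.comp (contDiff_id.sub contDiff_const))
  refine ⟨fun p => (hc p).toSchwartzMap (hs p), ?_, ?_, ?_⟩
  · intro p x hx
    have h1 : ((f (x - p) : ℝ) : ℂ) ≠ 0 := hx
    have h2 : x - p ∈ Function.support f := by
      intro h3
      exact h1 (by rw [h3, Complex.ofReal_zero])
    rw [f.support_eq, mem_ball_zero_iff] at h2
    exact h2
  · intro p ξ
    have h1 := fourier_pfun p 0 ((hc 0).toSchwartzMap (hs 0)) ξ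
    rw [sub_zero] at h1
    rw [← h1, SchwartzMap.fourier_coe]
    refine congrArg (fun g : E d → ℂ => 𝓕 g ξ) ?_
    funext x
    have e1 : ((hc p).toSchwartzMap (hs p)) x = ((f (x - p) : ℝ) : ℂ) := rfl
    have e2 : ((hc 0).toSchwartzMap (hs 0)) (x - p) = ((f (x - p - 0) : ℝ) : ℂ) := rfl
    rw [e1, pfun, e2, sub_zero, ch]
    simp
  · have e1 : ((hc 0).toSchwartzMap (hs 0)) 0 = ((f (0 - 0) : ℝ) : ℂ) := rfl
    rw [e1, sub_zero, f.one_of_mem_closedBall (by simp [f]; positivity)]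
    simp

theorem ex_ne (q : E d) (c ζ : ℂ) (ξ : E d) : ex q c ζ ξ ≠ 0 := Complex.exp_ne_zero _

theorem toL_ne (ψ : 𝓢(E d, ℂ)) (hψ : ψ 0 ≠ 0) (q : E d) (c ζ : ℂ) (hA : Adm c ζ) :
    toL (fun ξ => ex q c ζ ξ * (𝓕 ψ) ξ) ≠ 0 := by
  intro h0
  have h1 := toL_coe (exS_memLp q c ζ hA (𝓕 ψ))
  rw [h0] at h1
  have h2 : (fun ξ => (𝓕 ψ) ξ) =ᵐ[(volume : Measure (E d))] fun _ => (0 : ℂ) := by
    filter_upwards [h1, Lp.coeFn_zero ℂ 2 (volume : Measure (E d))] with ξ h3 h4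
    rw [h4, Pi.zero_apply] at h3
    exact (mul_eq_zero.1 h3.symm).resolve_left (ex_ne _ _ _ _)
  have h3 : (fun ξ => (𝓕 ψ) ξ) = fun _ => (0 : ℂ) :=
    ((𝓕 ψ).continuous.ae_eq_iff_eq volume continuous_const).1 h2
  have h4 : (𝓕 ψ : 𝓢(E d, ℂ)) = 0 := by
    ext ξ
    exact congrFun h3 ξ
  have h5 : ψ = 0 := by
    have h6 : (𝓕⁻ (𝓕 ψ : 𝓢(E d, ℂ)) : 𝓢(E d, ℂ)) = ψ := fourierInv_fourier_eq ψ
    rw [← h6, h4]
    have h7 : (𝓕 (0 : 𝓢(E d, ℂ)) : 𝓢(E d, ℂ)) = 0 := by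
      have := SchwartzMap.fourier_coe (0 : 𝓢(E d, ℂ))
      ext ξ
      rw [this, Real.fourier_eq']
      simp
    have h8 : (𝓕⁻ (𝓕 (0 : 𝓢(E d, ℂ)) : 𝓢(E d, ℂ)) : 𝓢(E d, ℂ)) = 0 := fourierInv_fourier_eq _
    rw [h7] at h8
    exact h8
  exact hψ (by rw [h5]; rfl)

theorem close_aux {k M T τ s : ℝ} (hM : 0 < M) (hT : 0 < T) (g3 : k * T / M ≤ τ)
    (g4 : τ ≤ (k + 1) * T / M) (g5 : k ≤ s * M / T) (g6 : s * M / T ≤ k + 1) :
    |τ - s| ≤ T / M := by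
  have h1 : k * T / M ≤ s := by
    rw [div_le_iff₀ hM]
    rw [le_div_iff₀ hT] at g5
    exact g5
  have h2 : s ≤ (k + 1) * T / M := by
    rw [le_div_iff₀ hM]
    rw [div_le_iff₀ hT] at g6
    exact g6
  have h3 : (k + 1) * T / M = k * T / M + T / M := by ring
  rw [abs_le]
  constructor <;> linarith

theorem contra (S : Set (E d)) (hS : MeasurableSet S) (r R T : ℝ) (hr : 0 < r) (hT : 0 < T)
    (hball : ∀ x : E d, ∃ y : E d, ‖y - x‖ ≤ R ∧ ∀ x' : E d, ‖x' - y‖ < r → x' ∈ S)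
    (F : ℕ → L2 d) (hF : ∀ m, F m ≠ 0) (τ : (m : ℕ) → Fin (m + 1) → ℝ)
    (hτ : ∀ m (j : Fin (m + 1)), (j : ℝ) * T / (m + 1 : ℕ) ≤ τ m j ∧ τ m j ≤ ((j : ℝ) + 1) * T / (m + 1 : ℕ))
    (δ : ℕ → ℝ) (hδ : ∀ m, 0 < δ m) (hδ0 : Tendsto δ atTop (𝓝 0))
    (hs : ∀ m, ∑ j, ‖obs S (τ m j) (F m)‖ ^ 2 ≤ δ m * ‖F m‖ ^ 2) : False := by
  obtain ⟨hm, hb, hw, hne, hfin⟩ := stW d
  obtain ⟨b, hb1, hb2, hb3⟩ := exists_bump (d := d) (r / 4) (by positivity)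
  have hA1 : Adm (1 : ℂ) 0 := Or.inl (by simp)
  have hA1' : ∀ ζ, Adm (1 : ℂ) ζ := fun ζ => Or.inl (by simp)
  have h2 := exS_memLp (0 : E d) 1 0 hA1 (𝓕 (b 0))
  obtain ⟨C₀, hC₀⟩ := exS_bdd (0 : E d) 1 0 hA1 (𝓕 (b 0))
  have h0 : h2.toLp _ ≠ 0 := by
    rw [← toL_eq h2]
    exact toL_ne (b 0) hb3 0 1 0 hA1
  obtain ⟨C, hC, hsel⟩ := selection hm hb hfin (exS_meas (0 : E d) 1 0 (𝓕 (b 0))) hC₀ h2 h0
  choose x₀ ξ₀ p1 p2 p3 using fun m => hsel (F m) (hF m) (m + 1) (fun j => obs S (τ m j) (F m))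
    (δ m) (hδ m) (hs m)
  rw [← toL_eq h2] at p1 p2 p3
  clear hsel h0
  obtain ⟨α, hα⟩ : ∃ α : ℕ → ℂ, ∀ m, α m =
    ⟪toL (fun ξ => ex 0 1 0 ξ * (𝓕 (b 0)) ξ), Tz (x₀ m) (ξ₀ m) (F m)⟫_ℂ := ⟨_, fun m => rfl⟩
  simp_rw [← hα] at p1 p2 p3
  have hα0 : ∀ m, α m ≠ 0 := by
    intro m h
    have := p1 m
    rw [h] at this
    simp at this
  have hsc : ∀ (m : ℕ) (G : L2 d) (B : ℝ), ‖Wo G‖ ^ 2 ≤ B * ‖α m‖ ^ 2 →
      ‖Wo ((α m)⁻¹ • G)‖ ≤ √B := by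
    intro m G B hB
    rw [Wo_smul hm hb, norm_smul, norm_inv]
    apply Real.le_sqrt_of_sq_le
    rw [mul_pow, inv_pow, inv_mul_eq_div, div_le_iff₀ (p1 m)]
    exact hB
  obtain ⟨v, hvd⟩ : ∃ v : ℕ → L2 d, ∀ m, v m = (α m)⁻¹ • Tz (x₀ m) (ξ₀ m) (F m) :=
    ⟨_, fun m => rfl⟩
  have hv : ∀ m, ‖Wo (v m)‖ ≤ √C := fun m => by rw [hvd]; exact hsc m _ _ (p2 m)
  have hw' : ∀ m j, ‖Wo ((α m)⁻¹ • Tz (x₀ m) (ξ₀ m) (obs S (τ m j) (F m)))‖ ≤ √(C * δ m) :=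
    fun m j => hsc m _ _ (p3 m j)
  have hv1 : ∀ m, ⟪toL (fun ξ => ex 0 1 0 ξ * (𝓕 (b 0)) ξ), v m⟫_ℂ = 1 := by
    intro m
    rw [hvd, inner_smul_right, ← hα, inv_mul_cancel₀ (hα0 m)]
  obtain ⟨U, hU⟩ : ∃ U : Ultrafilter ℕ, (U : Filter ℕ) ≤ atTop :=
    ⟨hyperfilter ℕ, Nat.hyperfilter_le_atTop⟩
  obtain ⟨h, hh⟩ := ultra (fun m => Wo (v m)) (√C) hv U
  obtain ⟨t, -, htf, htc⟩ := (isCompact_closedBall (0 : E d) R).finite_cover_balls (half_pos hr)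
  obtain ⟨K, hK⟩ : ∃ K : E d → Set ℝ, ∀ q, K q = {s | ∀ ψ : 𝓢(E d, ℂ),
      (∀ x, ψ x ≠ 0 → ‖x - q‖ < r / 2) → ∀ n χ, Rep 0 (𝓕 ψ) n χ →
      ⟪Yv 0 n χ (ct s) 0, h⟫_ℂ = 0} := ⟨_, fun q => rfl⟩
  have hKc : ∀ q, IsClosed (K q) := by
    intro q
    rw [hK]
    simp only [Set.ofPred_forall]
    refine isClosed_iInter fun ψ => isClosed_iInter fun _ => isClosed_iInter fun n =>
      isClosed_iInter fun χ => isClosed_iInter fun _ => ?_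
    exact isClosed_eq ((cont_Yv 0 n χ).inner continuous_const) continuous_const
  have hcov : Set.Ioo 0 T ⊆ ⋃ q ∈ htf.toFinset, K q := by
    rintro s ⟨hs0, hsT⟩
    have hj : ∀ m : ℕ, ∃ j : Fin (m + 1), |τ m j - s| ≤ T / (m + 1 : ℕ) := by
      intro m
      have hm0 : (0 : ℝ) < (m + 1 : ℕ) := by positivity
      have g1 : s * (m + 1 : ℕ) / T < (m + 1 : ℕ) := by
        rw [div_lt_iff₀ hT, mul_comm]
        exact mul_lt_mul_of_pos_left hsT hm0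
      have g0 : 0 ≤ s * (m + 1 : ℕ) / T := by positivity
      have g2 : ⌊s * (m + 1 : ℕ) / T⌋₊ < m + 1 := (Nat.floor_lt g0).2 g1
      refine ⟨⟨_, g2⟩, ?_⟩
      obtain ⟨g3, g4⟩ := hτ m ⟨_, g2⟩
      exact close_aux hm0 hT g3 g4 (Nat.floor_le g0) (Nat.lt_floor_add_one _).le
    choose j hj using hj
    have hts : Tendsto (fun m => τ m (j m)) U (𝓝 s) := by
      rw [tendsto_iff_norm_sub_tendsto_zero]
      have h5 : Tendsto (fun m : ℕ => T / ((m + 1 : ℕ) : ℝ)) U (𝓝 0) :=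
        ((tendsto_const_div_atTop_nhds_zero_nat T).comp (tendsto_add_atTop_nat 1)).mono_left hU
      exact squeeze_zero (fun m => norm_nonneg _) hj h5
    choose z hz1 hz2 using fun m => hball (x₀ m - (4 * Real.pi * τ m (j m)) • ξ₀ m)
    have hq0 : ∀ m, ∃ q ∈ t, ‖(z m - (x₀ m - (4 * Real.pi * τ m (j m)) • ξ₀ m)) - q‖ < r / 2 := by
      intro m
      have h6 := htc (mem_closedBall_zero_iff.2 (hz1 m))
      rw [Set.mem_iUnion₂] at h6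
      obtain ⟨q, hqt, h7⟩ := h6
      exact ⟨q, hqt, mem_ball_iff_norm.1 h7⟩
    obtain ⟨q, hqt, hq⟩ := (Ultrafilter.eventually_exists_mem_iff (f := U) htf).1
      (Eventually.of_forall hq0)
    rw [Set.mem_iUnion₂]
    refine ⟨q, htf.mem_toFinset.2 hqt, ?_⟩
    rw [hK]
    intro ψ hψ n χ hrep
    refine limit_zero U v (fun m => (α m)⁻¹ • Tz (x₀ m) (ξ₀ m) (obs S (τ m (j m)) (F m)))
      (fun m => τ m (j m)) s (√C) hts hv ?_ h hh 0 (𝓕 ψ) n χ hrep ?_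
    · have h8 : Tendsto (fun m => √(C * δ m)) U (𝓝 0) := by
        have := ((hδ0.mono_left hU).const_mul C).sqrt
        simpa using this
      exact squeeze_zero (fun m => norm_nonneg _) (fun m => hw' m (j m)) h8
    · filter_upwards [hq] with m hm'
      rw [hvd, inner_smul_right, inner_smul_right,
        pair_obs hS (τ m (j m)) (x₀ m) (ξ₀ m) _ 0 rfl ψ ?_ (F m)]
      intro x hx
      apply hz2 m
      have h9 := hψ x hx
      have h10 : x + (x₀ m - (4 * Real.pi * τ m (j m)) • ξ₀ m) - z m =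
          (x - q) - ((z m - (x₀ m - (4 * Real.pi * τ m (j m)) • ξ₀ m)) - q) := by abel
      rw [h10]
      exact (norm_sub_le _ _).trans_lt (by linarith)
  obtain ⟨q, hq, V', hV1, hV2, hV3, hV4⟩ := fin_cover htf.toFinset K hKc (Set.Ioo 0 T)
    isOpen_Ioo ⟨T / 2, by constructor <;> linarith⟩ hcov
  obtain ⟨t₁, t₂, h12, hsub⟩ : ∃ t₁ t₂ : ℝ, t₁ < t₂ ∧ Set.Ioo t₁ t₂ ⊆ K q := by
    obtain ⟨x, hx⟩ := hV2
    obtain ⟨ε, hε, hb⟩ := Metric.isOpen_iff.1 hV1 x hx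
    rw [Real.ball_eq_Ioo] at hb
    exact ⟨x - ε, x + ε, by linarith, hb.trans hV4⟩
  have star : ∀ ψ : 𝓢(E d, ℂ), (∀ x, ψ x ≠ 0 → ‖x - q‖ < r / 2) →
      Tendsto (fun m => ⟪toL (fun ξ => ex 0 1 0 ξ * (𝓕 ψ) ξ), v m⟫_ℂ) U (𝓝 0) := by
    intro ψ hψ
    obtain ⟨n, χ, hrep⟩ := rep (0 : E d) (𝓕 ψ) hm hb hw
    have k1 := cont_c h 0 n χ t₁ t₂ h12 (fun t h1 h2 => by
      have := hsub ⟨h1, h2⟩
      rw [hK] at this
      exact this ψ hψ n χ hrep)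
    have k2 := hh (Yv 0 n χ 1 0)
    rw [k1] at k2
    refine k2.congr fun m => ?_
    exact hrep 1 0 hA1 (v m)
  obtain ⟨n, χ, hrep⟩ := rep q (𝓕 (b 0)) hm hb hw
  have fin1 : ⟪Yv q n χ 1 0, h⟫_ℂ = 0 := by
    apply cont_z h q n χ (r / (4 * (‖q‖ + 1))) (by positivity)
    intro s hs'
    have hsq : |s - 1| * ‖q‖ ≤ r / 4 := by
      rw [lt_div_iff₀ (by positivity)] at hs'
      nlinarith [abs_nonneg (s - 1), norm_nonneg q]
    have k1 := star (b (s • q)) (by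
      intro x hx
      have h5 := hb1 _ _ hx
      have h6 : x - q = (x - s • q) + (s - 1) • q := by
        rw [sub_smul, one_smul]
        abel
      rw [h6]
      have h7 : ‖(s - 1) • q‖ = |s - 1| * ‖q‖ := by rw [norm_smul, Real.norm_eq_abs]
      have h8 := norm_add_le (x - s • q) ((s - 1) • q)
      rw [h7] at h8
      linarith)
    have e1 : (fun ξ => ex 0 1 0 ξ * (𝓕 (b (s • q))) ξ) = fun ξ => ex q 1 s ξ * (𝓕 (b 0)) ξ := by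
      funext ξ
      rw [hb2, ← mul_assoc]
      congr 1
      rw [ex, ex, ch, ← Complex.exp_conj, ← Complex.exp_add]
      congr 1
      simp only [map_mul, Complex.conj_ofReal, Complex.conj_I, map_ofNat, inner_smul_left,
        inner_zero_left]
      simp only [conj_trivial]
      push_cast
      ring
    rw [e1] at k1
    have k2 : Tendsto (fun m => ⟪Yv q n χ 1 s, Wo (v m)⟫_ℂ) U (𝓝 0) := by
      refine k1.congr fun m => ?_
      exact (hrep 1 s (hA1' s) (v m)).symm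
    exact tendsto_nhds_unique (hh _) k2
  have fin2 : Tendsto (fun m => ⟪Yv q n χ 1 0, Wo (v m)⟫_ℂ) U (𝓝 1) := by
    have e1 : ∀ m, ⟪Yv q n χ 1 0, Wo (v m)⟫_ℂ = 1 := by
      intro m
      have e2 : (fun ξ => ex q 1 0 ξ * (𝓕 (b 0)) ξ) = fun ξ => ex 0 1 0 ξ * (𝓕 (b 0)) ξ := by
        funext ξ
        rw [ex, ex, zero_mul, zero_mul]
      rw [hrep 1 0 hA1 (v m), e2]
      exact hv1 m
    simp_rw [e1]
    exact tendsto_const_nhds
  have := tendsto_nhds_unique (hh _) fin2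
  rw [fin1] at this
  exact zero_ne_one this

end Pool.Agent.R853.Obs
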