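import Pool.Agent.R853.Obs.Core8
import Pool.Agent.R168.Obs.OBB

set_option autoImplicit false

open MeasureTheory FourierTransform SchwartzMap Complex Filter Topology
open scoped ENNReal InnerProductSpace ComplexConjugate ContDiff

namespace Pool.Agent.R853.Obs

variable {d : ℕ}

theorem cont_ph (F : L2 d) : Continuous (fun t : ℝ => op (ph t) F) := by
  rw [continuous_iff_continuousAt]
  intro s
  have hG : Continuous (fun t : ℝ => ∫ ξ, ‖ph t ξ * F ξ - ph s ξ * F ξ‖ ^ 2) := by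
    apply continuous_of_dominated (bound := fun ξ => (2 * ‖F ξ‖) ^ 2)
    · intro t
      exact ((((ph_cont t).aestronglyMeasurable.mul (Lp.aestronglyMeasurable F)).sub
        ((ph_cont s).aestronglyMeasurable.mul (Lp.aestronglyMeasurable F))).norm.pow 2)
    · intro t
      refine ae_of_all _ fun ξ => ?_
      rw [Real.norm_of_nonneg (by positivity)]
      apply pow_le_pow_left₀ (norm_nonneg _)
      calc ‖ph t ξ * F ξ - ph s ξ * F ξ‖
          ≤ ‖ph t ξ * F ξ‖ + ‖ph s ξ * F ξ‖ := norm_sub_le _ _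
        _ = 2 * ‖F ξ‖ := by
          rw [norm_mul, norm_mul, ph_norm, ph_norm]
          ring
    · have h2 := (Lp.memLp F).integrable_norm_pow (by norm_num)
      have h3 : (fun ξ => (2 * ‖F ξ‖) ^ 2) = fun ξ => 4 * ‖F ξ‖ ^ 2 := by
        funext ξ
        ring
      rw [h3]
      exact Integrable.const_mul (by simpa using h2) _
    · refine ae_of_all _ fun ξ => ?_
      have h4 : Continuous (fun t : ℝ => ph t ξ) := by
        unfold ph
        fun_prop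
      exact (((h4.mul continuous_const).sub continuous_const).norm.pow 2)
  have h0 : (∫ ξ, ‖ph s ξ * F ξ - ph s ξ * F ξ‖ ^ 2) = 0 := by simp
  have hm := fun t : ℝ => memLp_mul (ph_meas t) (ph_norm_le t) F
  have h5 : ∀ t, ‖op (ph t) F - op (ph s) F‖ ^ 2 = ∫ ξ, ‖ph t ξ * F ξ - ph s ξ * F ξ‖ ^ 2 := by
    intro t
    rw [op_eq (ph_meas t) (ph_norm_le t), op_eq (ph_meas s) (ph_norm_le s), ← toL_eq, ← toL_eq,
      toL_sub (hm t) (hm s), norm_sq_toL]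
    exact (hm t).sub (hm s)
  have h6 : Tendsto (fun t : ℝ => ‖op (ph t) F - op (ph s) F‖ ^ 2) (𝓝 s) (𝓝 0) := by
    simp_rw [h5]
    have := hG.tendsto s
    rwa [h0] at this
  rw [ContinuousAt, tendsto_iff_norm_sub_tendsto_zero]
  have h7 := h6.sqrt
  simp only [Real.sqrt_zero] at h7
  refine h7.congr fun t => ?_
  rw [Real.sqrt_sq (norm_nonneg _)]

/-- the free Schroedinger evolution -/
noncomputable def schr (t : ℝ) (u₀ : L2 d) : L2 d := 𝓕⁻ (op (ph t) (𝓕 u₀))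

theorem cont_schr (u₀ : L2 d) : Continuous (fun t : ℝ => schr t u₀) :=
  (Lp.fourierTransformₗᵢ (E d) ℂ).symm.continuous.comp (cont_ph _)

theorem obs_eq {a : E d → ℝ} (ha : Measurable a) (h0 : ∀ x, 0 ≤ a x) (h1 : ∀ x, a x ≤ 1)
    (u : L2 d) : ∫ x, (a x * ‖u x‖) ^ 2 = ‖op (fun x => (a x : ℂ)) u‖ ^ 2 := by
  have hm : Measurable (fun x => (a x : ℂ)) := Complex.measurable_ofReal.comp ha
  have hb : ∀ x, ‖(a x : ℂ)‖ ≤ 1 := fun x => by
    rw [Complex.norm_real, Real.norm_of_nonneg (h0 x)]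
    exact h1 x
  rw [op_eq hm hb, ← toL_eq, norm_sq_toL (memLp_mul hm hb u)]
  apply integral_congr_ae
  filter_upwards with x
  rw [norm_mul, Complex.norm_real, Real.norm_of_nonneg (h0 x)]

/-- observability from measurable functions bounded below on relatively dense balls -/
theorem main_balls (a : E d → ℝ) (ha : Measurable a) (h0 : ∀ x, 0 ≤ a x) (h1 : ∀ x, a x ≤ 1)
    (c r R : ℝ) (hc : 0 < c) (hr : 0 < r)
    (hball : ∀ x : E d, ∃ y : E d, ‖y - x‖ ≤ R ∧ ∀ x' : E d, ‖x' - y‖ < r → c ≤ a x')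
    (T : ℝ) (hT : 0 < T) :
    ∃ C : ℝ, 0 < C ∧ ∀ u₀ : L2 d, ‖u₀‖ ^ 2 ≤ C * ∫ t in (0:ℝ)..T, ∫ x, (a x * ‖schr t u₀ x‖) ^ 2 := by
  have hm : Measurable (fun x => (a x : ℂ)) := Complex.measurable_ofReal.comp ha
  have hb : ∀ x, ‖(a x : ℂ)‖ ≤ 1 := fun x => by
    rw [Complex.norm_real, Real.norm_of_nonneg (h0 x)]
    exact h1 x
  by_contra hcon
  push Not at hcon
  choose u hu using fun m : ℕ => hcon (((m + 1 : ℕ) : ℝ) ^ 3) (by positivity)
  obtain ⟨f, hf⟩ : ∃ f : ℕ → ℝ → ℝ, ∀ m t, f m t = ∫ x, (a x * ‖schr t (u m) x‖) ^ 2 :=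
    ⟨_, fun m t => rfl⟩
  simp_rw [← hf] at hu
  have hf2 : ∀ m t, f m t = ‖op (fun x => (a x : ℂ)) (schr t (u m))‖ ^ 2 := fun m t => by
    rw [hf, obs_eq ha h0 h1]
  have hf0 : ∀ m t, 0 ≤ f m t := fun m t => by rw [hf2]; positivity
  have hfc : ∀ m, Continuous (f m) := by
    intro m
    have : f m = fun t => ‖op (fun x => (a x : ℂ)) (schr t (u m))‖ ^ 2 := funext (hf2 m)
    rw [this]
    exact ((continuous_op hm hb).comp (cont_schr (u m))).norm.pow 2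
  have hint : ∀ m, 0 ≤ ∫ t in (0:ℝ)..T, f m t := fun m =>
    intervalIntegral.integral_nonneg hT.le fun t _ => hf0 m t
  have hu0 : ∀ m, 0 < ‖u m‖ ^ 2 := fun m =>
    lt_of_le_of_lt (mul_nonneg (by positivity) (hint m)) (hu m)
  have hτ : ∀ m : ℕ, ∃ τ : Fin (m + 1) → ℝ, ∀ j : Fin (m + 1),
      (j : ℝ) * T / (m + 1 : ℕ) ≤ τ j ∧ τ j ≤ ((j : ℝ) + 1) * T / (m + 1 : ℕ) ∧
      f m (τ j) ≤ (m + 1 : ℕ) * (‖u m‖ ^ 2 / ((m + 1 : ℕ) : ℝ) ^ 3) / T := by
    intro m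
    apply stT (f m) T _ (m + 1) hT (Nat.succ_pos m) (hfc m).continuousOn (fun t _ => hf0 m t)
    rw [le_div_iff₀ (by positivity), mul_comm]
    exact (hu m).le
  choose τ hτ1 using hτ
  have hS : MeasurableSet {x : E d | c ≤ a x} := measurableSet_le measurable_const ha
  refine contra {x : E d | c ≤ a x} hS r R T hr hT hball (fun m => 𝓕 (u m)) ?_ τ
    (fun m j => ⟨(hτ1 m j).1, (hτ1 m j).2.1⟩) (fun m => c⁻¹ ^ 2 * T⁻¹ / ((m + 1 : ℕ) : ℝ))
    (fun m => by positivity) ?_ ?_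
  · intro m h
    have h2 := norm_fourier (u m)
    rw [h, norm_zero] at h2
    have := hu0 m
    rw [← h2] at this
    simp at this
  · exact (tendsto_const_div_atTop_nhds_zero_nat _).comp (tendsto_add_atTop_nat 1)
  · intro m
    have hm0 : (0 : ℝ) < ((m + 1 : ℕ) : ℝ) := by positivity
    have k1 : ∀ j : Fin (m + 1), ‖obs {x : E d | c ≤ a x} (τ m j) (𝓕 (u m))‖ ^ 2 ≤
        c⁻¹ ^ 2 * ((m + 1 : ℕ) * (‖u m‖ ^ 2 / ((m + 1 : ℕ) : ℝ) ^ 3) / T) := by
      intro j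
      have k2 : ‖obs {x : E d | c ≤ a x} (τ m j) (𝓕 (u m))‖ ≤
          c⁻¹ * ‖op (fun x => (a x : ℂ)) (schr (τ m j) (u m))‖ := by
        refine (norm_obs _ _ _).trans ?_
        apply Lp.norm_le_mul_norm_of_ae_le_mul
        filter_upwards [op_coe (ind_meas hS) (ind_norm_le _) (𝓕⁻ (op (ph (τ m j)) (𝓕 (u m)))),
          op_coe hm hb (schr (τ m j) (u m))] with x e1 e2
        rw [e1, e2, norm_mul, norm_mul, schr, ← mul_assoc]
        apply mul_le_mul_of_nonneg_right _ (norm_nonneg _)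
        rw [Complex.norm_real, Real.norm_of_nonneg (h0 x)]
        by_cases hx : x ∈ {x : E d | c ≤ a x}
        · rw [Set.indicator_of_mem hx, Pi.one_apply, norm_one, inv_mul_eq_div, le_div_iff₀ hc,
            one_mul]
          exact hx
        · rw [Set.indicator_of_notMem hx, norm_zero]
          have := h0 x
          positivity
      calc ‖obs {x : E d | c ≤ a x} (τ m j) (𝓕 (u m))‖ ^ 2
          ≤ (c⁻¹ * ‖op (fun x => (a x : ℂ)) (schr (τ m j) (u m))‖) ^ 2 :=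
            pow_le_pow_left₀ (norm_nonneg _) k2 2
        _ = c⁻¹ ^ 2 * f m (τ m j) := by rw [hf2, mul_pow]
        _ ≤ _ := mul_le_mul_of_nonneg_left (hτ1 m j).2.2 (by positivity)
    calc ∑ j, ‖obs {x : E d | c ≤ a x} (τ m j) (𝓕 (u m))‖ ^ 2
        ≤ ∑ _j : Fin (m + 1), c⁻¹ ^ 2 * ((m + 1 : ℕ) * (‖u m‖ ^ 2 / ((m + 1 : ℕ) : ℝ) ^ 3) / T) :=
          Finset.sum_le_sum fun j _ => k1 j
      _ = c⁻¹ ^ 2 * T⁻¹ / ((m + 1 : ℕ) : ℝ) * ‖u m‖ ^ 2 := by
        rw [Finset.sum_const, Finset.card_univ, Fintype.card_fin, nsmul_eq_mul]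
        field_simp
      _ = _ := by rw [norm_fourier]

theorem main_uc (a : E d → ℝ) (h0 : ∀ x, 0 ≤ a x) (h1 : ∀ x, a x ≤ 1)
    (hu : UniformContinuous a) (L η : ℝ) (hL : 0 < L) (hη : 0 < η)
    (hd : ∀ x : E d, η * L ^ d ≤ ∫ y in {y : E d | ∀ i, x i ≤ y i ∧ y i ≤ x i + L}, a y)
    (T : ℝ) (hT : 0 < T) :
    ∃ C : ℝ, 0 < C ∧ ∀ u₀ : L2 d, ‖u₀‖ ^ 2 ≤ C * ∫ t in (0:ℝ)..T, ∫ x, (a x * ‖schr t u₀ x‖) ^ 2 := by
  obtain ⟨c, r, R, hc, hr, -, hb⟩ := stB d a h0 h1 hu L η hL hη hd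
  exact main_balls a hu.continuous.measurable h0 h1 c r R hc hr hb T hT

end Pool.Agent.R853.Obs
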