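import Mathlib

set_option autoImplicit false

/-!
# MP_0a8f24_an: definitions

Observability of the free Schroedinger equation on `ℝ ^ d` from relatively dense observation
functions. Everything is done in the Fourier picture: a state is `F = 𝓕 u₀ ∈ L²`, the evolution is
the multiplication by a phase.
-/

open MeasureTheory FourierTransform SchwartzMap Complex Filter Topology
open scoped ENNReal InnerProductSpace ComplexConjugate ContDiff

namespace Pool.Agent.R853.Obs

variable {d : ℕ}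

/-- `ℝ ^ d`. -/
noncomputable abbrev E (d : ℕ) := EuclideanSpace ℝ (Fin d)

/-- `L²(ℝ ^ d)`. -/
noncomputable abbrev L2 (d : ℕ) := Lp (α := E d) ℂ 2 (volume : Measure (E d))

/-- the weight `∏ (x_j + i)⁻¹`. -/
noncomputable def wt (x : E d) : ℂ := ∏ j, ((x j : ℂ) + I)⁻¹

/-- the polynomial `∏ (x_j - i)`. -/
noncomputable def bt (x : E d) : ℂ := ∏ j, ((x j : ℂ) - I)

/-- the exponential `exp (- c |ξ|² - 2 π i ζ ⟨q, ξ⟩)` with complex parameters `c`, `ζ`. -/
noncomputable def ex (q : E d) (c ζ : ℂ) (ξ : E d) : ℂ :=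
  Complex.exp (-c * (‖ξ‖ : ℂ) ^ 2 - ζ * (2 * Real.pi * I * (⟪q, ξ⟫_ℝ : ℂ)))

/-- admissible parameters: `ex q c ζ` is bounded -/
def Adm (c ζ : ℂ) : Prop := 0 < c.re ∨ (0 ≤ c.re ∧ ζ.im = 0)

/-- a polynomial in `c`, `ζ` with coefficients in the Schwartz space -/
noncomputable def poly (n : ℕ) (χ : ℕ → ℕ → 𝓢(E d, ℂ)) (c ζ : ℂ) (ξ : E d) : ℂ :=
  ∑ k ∈ Finset.range n, ∑ l ∈ Finset.range n, c ^ k * ζ ^ l * χ k l ξ

/-- multiplication by a function; zero if the product is not in `L²` -/
noncomputable def op (φ : E d → ℂ) (f : L2 d) : L2 d := by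
  classical
  exact if h : MemLp (fun x => φ x * f x) 2 (volume : Measure (E d)) then h.toLp _ else 0

end Pool.Agent.R853.Obs
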