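import Pool.Agent.R853.Obs.Defs

set_option autoImplicit false

open MeasureTheory FourierTransform SchwartzMap Complex Filter Topology
open scoped ENNReal InnerProductSpace ComplexConjugate ContDiff

namespace Pool.Agent.R853.Obs

variable {d : ℕ}


theorem conj_fourierInv (g : E d → ℂ) (ξ : E d) (hg : ∀ x, conj (g x) = g x) :
    conj (𝓕⁻ g ξ) = 𝓕 g ξ := by
  rw [Real.fourierInv_eq', Real.fourier_eq', ← integral_conj]
  apply integral_congr_ae
  filter_upwards with x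
  simp only [smul_eq_mul, map_mul, hg, ← Complex.exp_conj]
  congr 2
  simp only [Complex.conj_ofReal, Complex.conj_I]
  push_cast
  ring

theorem inner_eq_integral (f g : L2 d) : ⟪f, g⟫_ℂ = ∫ x, conj (f x) * g x := by
  rw [L2.inner_def]
  apply integral_congr_ae
  filter_upwards with x
  rw [RCLike.inner_apply, mul_comm]

theorem fourier_coe_ae {k : E d → ℂ} (h1 : Integrable k) (h2 : MemLp k 2 volume) :
    ((𝓕 (h2.toLp k) : L2 d) : E d → ℂ) =ᵐ[volume] 𝓕 k := by
  have hc : Continuous (𝓕 k) :=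
    VectorFourier.fourierIntegral_continuous Real.continuous_fourierChar
      (by simpa using continuous_inner) h1
  refine ae_eq_of_integral_contDiff_smul_eq
    ((Lp.memLp _).locallyIntegrable (by norm_num)) hc.locallyIntegrable ?_
  intro g hg hgc
  have hgc' : HasCompactSupport (fun x : E d => (g x : ℂ)) := hgc.comp_left Complex.ofReal_zero
  have hgs : ContDiff ℝ ∞ (fun x : E d => (g x : ℂ)) := Complex.ofRealCLM.contDiff.comp hg
  set gs : 𝓢(E d, ℂ) := hgc'.toSchwartzMap hgs with hgsd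
  have hgs1 : ∀ x, gs x = (g x : ℂ) := fun x => rfl
  have e1 : ∫ x, g x • (𝓕 (h2.toLp k) : L2 d) x = ⟪(gs.toLp 2 : L2 d), 𝓕 (h2.toLp k)⟫_ℂ := by
    rw [inner_eq_integral]
    apply integral_congr_ae
    filter_upwards [gs.coeFn_toLp 2 volume] with x hx
    rw [hx, hgs1, Complex.conj_ofReal]
    simp
  have e2 : ⟪(gs.toLp 2 : L2 d), 𝓕 (h2.toLp k)⟫_ℂ = ⟪((𝓕⁻ gs).toLp 2 : L2 d), h2.toLp k⟫_ℂ := by
    have h3 := Lp.inner_fourier_eq (𝓕⁻ (gs.toLp 2 : L2 d)) (h2.toLp k)
    rw [fourier_fourierInv_eq] at h3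
    rw [← SchwartzMap.toLp_fourierInv_eq]
    exact h3
  have e3 : ⟪((𝓕⁻ gs).toLp 2 : L2 d), h2.toLp k⟫_ℂ = ∫ ξ, (𝓕 (gs : E d → ℂ) ξ) • k ξ := by
    rw [inner_eq_integral]
    apply integral_congr_ae
    filter_upwards [(𝓕⁻ gs).coeFn_toLp 2 volume, h2.coeFn_toLp] with x hx hx2
    rw [hx, hx2, SchwartzMap.fourierInv_coe, conj_fourierInv _ _ (fun x => by rw [hgs1]; simp)]
    simp
  have e4 : ∫ ξ, (𝓕 (gs : E d → ℂ) ξ) • k ξ = ∫ x, gs x • 𝓕 k x := by
    have := VectorFourier.integral_fourierIntegral_smul_eq_flip (L := innerₗ (E d))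
      (f := (gs : E d → ℂ)) (g := k) (μ := volume) (ν := volume) Real.continuous_fourierChar
      (by simpa using continuous_inner) gs.integrable h1
    rw [flip_innerₗ] at this
    exact this
  rw [e1, e2, e3, e4]
  apply integral_congr_ae
  filter_upwards with x
  rw [hgs1]
  simp

theorem fourierInv_coe_ae {k : E d → ℂ} (h1 : Integrable k) (h2 : MemLp k 2 volume) :
    ((𝓕⁻ (h2.toLp k) : L2 d) : E d → ℂ) =ᵐ[volume] 𝓕⁻ k := by
  have hc : Continuous (𝓕⁻ k) := by
    have := VectorFourier.fourierIntegral_continuous (V := E d) (W := E d) (μ := volume)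
      (L := -innerₗ (E d)) Real.continuous_fourierChar
      (by simpa using (continuous_inner (𝕜 := ℝ) (E := E d)).fun_neg) h1
    exact this
  refine ae_eq_of_integral_contDiff_smul_eq
    ((Lp.memLp _).locallyIntegrable (by norm_num)) hc.locallyIntegrable ?_
  intro g hg hgc
  have hgc' : HasCompactSupport (fun x : E d => (g x : ℂ)) := hgc.comp_left Complex.ofReal_zero
  have hgs : ContDiff ℝ ∞ (fun x : E d => (g x : ℂ)) := Complex.ofRealCLM.contDiff.comp hg
  set gs : 𝓢(E d, ℂ) := hgc'.toSchwartzMap hgs with hgsd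
  have hgs1 : ∀ x, gs x = (g x : ℂ) := fun x => rfl
  have e1 : ∫ x, g x • (𝓕⁻ (h2.toLp k) : L2 d) x = ⟪(gs.toLp 2 : L2 d), 𝓕⁻ (h2.toLp k)⟫_ℂ := by
    rw [inner_eq_integral]
    apply integral_congr_ae
    filter_upwards [gs.coeFn_toLp 2 volume] with x hx
    rw [hx, hgs1, Complex.conj_ofReal]
    simp
  have e2 : ⟪(gs.toLp 2 : L2 d), 𝓕⁻ (h2.toLp k)⟫_ℂ = ⟪((𝓕 gs).toLp 2 : L2 d), h2.toLp k⟫_ℂ := by
    have h3 := Lp.inner_fourier_eq (gs.toLp 2 : L2 d) (𝓕⁻ (h2.toLp k))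
    rw [fourier_fourierInv_eq] at h3
    rw [← SchwartzMap.toLp_fourier_eq]
    exact h3.symm
  have e3 : ⟪((𝓕 gs).toLp 2 : L2 d), h2.toLp k⟫_ℂ = ∫ ξ, (𝓕⁻ (gs : E d → ℂ) ξ) • k ξ := by
    rw [inner_eq_integral]
    apply integral_congr_ae
    filter_upwards [(𝓕 gs).coeFn_toLp 2 volume, h2.coeFn_toLp] with x hx hx2
    have h4 : conj (𝓕 (gs : E d → ℂ) x) = 𝓕⁻ (gs : E d → ℂ) x := by
      rw [← conj_fourierInv (gs : E d → ℂ) x (fun x => by rw [hgs1]; simp), Complex.conj_conj]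
    rw [hx, hx2, SchwartzMap.fourier_coe, h4]
    simp
  have e4 : ∫ ξ, (𝓕⁻ (gs : E d → ℂ) ξ) • k ξ = ∫ x, gs x • 𝓕⁻ k x := by
    have := VectorFourier.integral_fourierIntegral_smul_eq_flip (L := -innerₗ (E d))
      (f := (gs : E d → ℂ)) (g := k) (μ := volume) (ν := volume) Real.continuous_fourierChar
      (by simpa using (continuous_inner (𝕜 := ℝ) (E := E d)).fun_neg) gs.integrable h1
    have h5 : (-innerₗ (E d)).flip = -innerₗ (E d) := by
      ext x y
      simp [real_inner_comm]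
    rw [h5] at this
    exact this
  rw [e1, e2, e3, e4]
  apply integral_congr_ae
  filter_upwards with x
  rw [hgs1]
  simp

end Pool.Agent.R853.Obs
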